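import Pool.Agent.Lib_helper13.BC.Defs

/-!
# Symplectic matrices that permute the coordinate planes
-/

set_option autoImplicit false

namespace Pool.Agent.BC

open Matrix BranchCurve

section blocks

variable {n : ℕ} {R : Type} [CommRing R]

/-- The block matrix of a family of `2 × 2`-matrices. -/
def blk (A : Fin n → Matrix (Fin 2) (Fin 2) R) : Matrix (Fin n ⊕ Fin n) (Fin n ⊕ Fin n) R :=
  fromBlocks (diagonal fun i => A i 0 0) (diagonal fun i => A i 0 1) (diagonal fun i => A i 1 0)
    (diagonal fun i => A i 1 1)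

theorem blk_mul (A B : Fin n → Matrix (Fin 2) (Fin 2) R) :
    blk A * blk B = blk fun i => A i * B i := by
  unfold blk
  rw [fromBlocks_multiply]
  simp only [diagonal_mul_diagonal, diagonal_add, Matrix.mul_apply, Fin.sum_univ_two]

theorem blk_one : blk (fun _ : Fin n => (1 : Matrix (Fin 2) (Fin 2) R)) = 1 := by
  unfold blk
  have h : (fun _ : Fin n => (0 : R)) = 0 := rfl
  simp [fromBlocks_one, h]

theorem blk_sub (A B : Fin n → Matrix (Fin 2) (Fin 2) R) :
    blk A - blk B = blk fun i => A i - B i := by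
  unfold blk
  ext i j
  rcases i with i | i <;> rcases j with j | j <;>
    simp [fromBlocks_apply₁₁, fromBlocks_apply₁₂, fromBlocks_apply₂₁, fromBlocks_apply₂₂,
      diagonal_apply] <;> split_ifs <;> simp

theorem blk_inj {A B : Fin n → Matrix (Fin 2) (Fin 2) R} (h : blk A = blk B) (i : Fin n) :
    A i = B i := by
  have h1 : ∀ a b, blk A a b = blk B a b := fun a b => by rw [h]
  ext a b
  fin_cases a <;> fin_cases b
  · simpa [blk] using h1 (Sum.inl i) (Sum.inl i)
  · simpa [blk] using h1 (Sum.inl i) (Sum.inr i)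
  · simpa [blk] using h1 (Sum.inr i) (Sum.inl i)
  · simpa [blk] using h1 (Sum.inr i) (Sum.inr i)

theorem blk_mem {A : Fin n → Matrix (Fin 2) (Fin 2) R} (hA : ∀ i, (A i).det = 1) :
    blk A ∈ symplecticGroup (Fin n) R := by
  rw [SymplecticGroup.mem_iff]
  unfold blk Matrix.J
  rw [fromBlocks_transpose, fromBlocks_multiply, fromBlocks_multiply]
  simp only [diagonal_transpose, Matrix.mul_zero, Matrix.mul_one, zero_add, Matrix.mul_neg, add_zero,
    Matrix.neg_mul, diagonal_mul_diagonal]
  have h : ∀ i, A i 0 0 * A i 1 1 - A i 0 1 * A i 1 0 = 1 := fun i => by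
    rw [← Matrix.det_fin_two, hA]
  congr 1
  · ext i j
    by_cases hij : i = j
    · subst hij
      simp
      ring
    · simp [hij]
  · ext i j
    by_cases hij : i = j
    · subst hij
      simp
      linear_combination -(h i)
    · simp [hij]
  · ext i j
    by_cases hij : i = j
    · subst hij
      simp
      linear_combination h i
    · simp [hij]
  · ext i j
    by_cases hij : i = j
    · subst hij
      simp
      ring
    · simp [hij]

/-- The matrix of a permutation. -/
def pm (τ : Equiv.Perm (Fin n)) : Matrix (Fin n) (Fin n) R := Matrix.of fun i j => if i = τ j then 1 else 0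

theorem pm_apply (τ : Equiv.Perm (Fin n)) (i j : Fin n) :
    (pm τ : Matrix (Fin n) (Fin n) R) i j = if i = τ j then 1 else 0 := rfl

theorem pm_diag (τ : Equiv.Perm (Fin n)) (d : Fin n → R) :
    pm τ * diagonal d = diagonal (fun i => d (τ⁻¹ i)) * pm τ := by
  ext i j
  rw [mul_diagonal, diagonal_mul, pm_apply]
  by_cases h : i = τ j
  · rw [if_pos h, h, show τ⁻¹ (τ j) = j from τ.symm_apply_apply j]
    ring
  · rw [if_neg h]
    ring

theorem pm_transpose (τ : Equiv.Perm (Fin n)) :
    (pm τ : Matrix (Fin n) (Fin n) R) * (pm τ)ᵀ = 1 := by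
  ext i k
  rw [Matrix.mul_apply]
  simp only [transpose_apply, pm_apply]
  rw [Finset.sum_eq_single (τ⁻¹ i)]
  · have h1 : τ (τ⁻¹ i) = i := τ.apply_symm_apply i
    rw [h1, if_pos rfl, one_mul, Matrix.one_apply]
    by_cases h : i = k
    · rw [if_pos h.symm, if_pos h]
    · rw [if_neg (Ne.symm h), if_neg h]
  · intro j _ hj
    rw [if_neg, zero_mul]
    rintro rfl
    exact hj (τ.symm_apply_apply j).symm
  · intro h
    exact absurd (Finset.mem_univ _) h

/-- The block matrix of a permutation of the coordinate planes. -/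
def bp (τ : Equiv.Perm (Fin n)) : Matrix (Fin n ⊕ Fin n) (Fin n ⊕ Fin n) R :=
  fromBlocks (pm τ) 0 0 (pm τ)

theorem bp_mem (τ : Equiv.Perm (Fin n)) : (bp τ : Matrix (Fin n ⊕ Fin n) (Fin n ⊕ Fin n) R) ∈
    symplecticGroup (Fin n) R := by
  rw [SymplecticGroup.mem_iff]
  unfold bp Matrix.J
  rw [fromBlocks_transpose, fromBlocks_multiply, fromBlocks_multiply]
  simp [pm_transpose]

theorem bp_blk (τ : Equiv.Perm (Fin n)) (A : Fin n → Matrix (Fin 2) (Fin 2) R) :
    bp τ * blk A = blk (fun i => A (τ⁻¹ i)) * bp τ := by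
  unfold bp blk
  rw [fromBlocks_multiply, fromBlocks_multiply]
  simp only [Matrix.zero_mul, Matrix.mul_zero, add_zero, zero_add, pm_diag]

theorem pp_blk (A : Fin n → Matrix (Fin 2) (Fin 2) R) (τ : Equiv.Perm (Fin n)) :
    PermutesPlanes τ (blk A * bp τ) := by
  intro i j hij
  unfold blk bp
  rw [fromBlocks_multiply]
  simp [diagonal_mul, pm_apply, hij]

theorem bp_one : (bp (1 : Equiv.Perm (Fin n)) : Matrix (Fin n ⊕ Fin n) (Fin n ⊕ Fin n) R) = 1 := by
  unfold bp
  have h : (pm (1 : Equiv.Perm (Fin n)) : Matrix (Fin n) (Fin n) R) = 1 := by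
    ext i j
    rw [pm_apply, Matrix.one_apply]
    rfl
  rw [h, fromBlocks_one]

end blocks

/-- A matrix of order `m` in `SL_2` with the properties that are used. -/
structure Rot (m : ℕ) [NeZero m] {F : Type} [Field F] (C : Matrix (Fin 2) (Fin 2) F) : Prop where
  det : C.det = 1
  pow : C ^ m = 1
  free : ∀ x : ZMod m, x ≠ 0 → (C ^ x.val - 1).det ≠ 0
  inv : ∃ N : Matrix (Fin 2) (Fin 2) F, N.det = 1 ∧ N * C = C ^ (m - 1) * N
  units : ∀ c : (ZMod m)ˣ, (c : ZMod m) = 1 ∨ (c : ZMod m) = -1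

theorem rot_four {p : ℕ} [hp : Fact p.Prime] (hp2 : p ≠ 2) :
    Rot 4 (!![0, -1; 1, 0] : Matrix (Fin 2) (Fin 2) (ZMod p)) := by
  have h2 : (2 : ZMod p) ≠ 0 := by
    intro h
    have h1 : ((2 : ℕ) : ZMod p) = 0 := by exact_mod_cast h
    rw [ZMod.natCast_eq_zero_iff] at h1
    exact hp2 ((Nat.prime_dvd_prime_iff_eq hp.out Nat.prime_two).1 h1)
  have hsq : (!![0, -1; 1, 0] : Matrix (Fin 2) (Fin 2) (ZMod p)) ^ 2 = -1 := by
    rw [pow_two]
    ext i j
    fin_cases i <;> fin_cases j <;> simp [Matrix.mul_apply, Fin.sum_univ_two]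
  have hcu : (!![0, -1; 1, 0] : Matrix (Fin 2) (Fin 2) (ZMod p)) ^ 3 = !![0, 1; -1, 0] := by
    rw [pow_succ, hsq]
    ext i j
    fin_cases i <;> fin_cases j <;> simp
  refine ⟨by simp [Matrix.det_fin_two], ?_, ?_, ?_, by decide⟩
  · rw [show 4 = 2 * 2 from rfl, pow_mul, hsq]
    simp
  · intro x hx
    have h3 : x = 1 ∨ x = 2 ∨ x = 3 := by
      revert hx
      revert x
      decide
    rcases h3 with rfl | rfl | rfl
    · have h4 : (1 : ZMod 4).val = 1 := rfl
      rw [h4, pow_one, Matrix.det_fin_two]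
      simp
      convert h2 using 1
      ring_nf
    · have h4 : (2 : ZMod 4).val = 2 := rfl
      rw [h4, hsq, Matrix.det_fin_two]
      simp
      intro h5
      apply mul_ne_zero h2 h2
      linear_combination (-2 : ZMod p) * h5
    · have h4 : (3 : ZMod 4).val = 3 := rfl
      rw [h4, hcu, Matrix.det_fin_two]
      simp
      convert h2 using 1
      ring_nf
  · obtain ⟨a, b, hab⟩ := ZMod.sq_add_sq p (-1)
    refine ⟨!![a, b; b, -a], ?_, ?_⟩
    · rw [Matrix.det_fin_two]
      simp
      linear_combination -hab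
    · rw [show 4 - 1 = 3 from rfl, hcu]
      ext i j
      fin_cases i <;> fin_cases j <;> simp [Matrix.mul_apply, Fin.sum_univ_two]

theorem rot_three : Rot 3 (!![0, 1; 1, 1] : Matrix (Fin 2) (Fin 2) (ZMod 2)) := by
  refine ⟨by decide, by decide, by decide, ⟨!![1, 1; 0, 1], by decide, by decide⟩, by decide⟩

end Pool.Agent.BC
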