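import Mathlib

/-!
# Cyclic covers of surfaces and Galois actions modulo `p` on their branch curves: definitions

Here `K` is a number field, `Qbar` is the algebraic closure of `ℚ`, and the Galois group is the group
of the automorphisms of `Qbar` over `K`.
-/

set_option autoImplicit false

namespace Pool.Agent.BranchCurve

open NumberField Polynomial

/-- The algebraic closure of `ℚ`. -/
abbrev Qbar : Type := AlgebraicClosure ℚ

section frobenius

variable {K : Type} [Field K] [Algebra K Qbar]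

/-- The relation `R` is true at almost all Frobenius elements: `R(F, φ, σ⁻¹)` is true for all prime
ideals `𝔓` of the ring of algebraic integers above almost all primes `q`, all finite fields `F` that
contain the residue field of `K` at `𝔓` (by `φ`) and all elements `σ` of the Galois group that induce
`x ↦ x ^ |F|` modulo `𝔓`. -/
def AtFrobenius (R : ∀ (F : Type) [Field F] [Fintype F], (𝓞 K →+* F) → (Qbar ≃ₐ[K] Qbar) → Prop) :
    Prop :=
  ∃ B : Finset ℕ, ∀ q : ℕ, q.Prime → q ∉ B → ∀ 𝔓 : Ideal (𝓞 Qbar), 𝔓.IsPrime →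
    (q : 𝓞 Qbar) ∈ 𝔓 → ∀ (F : Type) [Field F] [Fintype F] (φ : 𝓞 K →+* F),
      (∀ x : 𝓞 K, φ x = 0 ↔ algebraMap (𝓞 K) (𝓞 Qbar) x ∈ 𝔓) →
      ∀ σ : Qbar ≃ₐ[K] Qbar, (∀ x y : 𝓞 Qbar, (y : Qbar) = σ x → y - x ^ Fintype.card F ∈ 𝔓) →
        R F φ σ⁻¹

end frobenius

section sums

variable {K : Type} [Field K] {F : Type} [Field F]

open Classical in
/-- The `m`-th power residue symbol of `y ∈ F`: it is `ζ ^ j` if `y ^ ((|F| - 1) / m) = φ(ζ) ^ j`,
`0 ≤ j < m`, and it is `0` if `y = 0`. -/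
noncomputable def residueSymbol [Fintype F] (m : ℕ) (ζ : 𝓞 K) (φ : 𝓞 K →+* F) (y : F) : 𝓞 K :=
  ∑ j : Fin m, if y ^ ((Fintype.card F - 1) / m) = φ ζ ^ (j : ℕ) then ζ ^ (j : ℕ) else 0

/-- A polynomial `H` in `M` variables over the integers of `K` with an integer coefficient `c`. -/
structure Term (K : Type) [Field K] where
  M : ℕ
  H : MvPolynomial (Fin M) (𝓞 K)
  c : ℤ

/-- The sum `∑ c_k ∑ [H_k(x)]` of the `m`-th power residue symbols of the values of the polynomials
`H_k` at all points `x` with coordinates in `F`. -/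
noncomputable def charSum [Fintype F] (m : ℕ) (ζ : 𝓞 K) {s : ℕ} (S : Fin s → Term K)
    (φ : 𝓞 K →+* F) : 𝓞 K :=
  ∑ k, ((S k).c : 𝓞 K) * ∑ x : Fin (S k).M → F, residueSymbol m ζ φ ((S k).H.eval₂ φ x)

/-- The sum `∑ c_k #{x | H_k(x) ≠ 0}` over all points `x` with coordinates in `F`. -/
noncomputable def pointCount {s : ℕ} (S : Fin s → Term K) (φ : 𝓞 K →+* F) : ℤ :=
  ∑ k, (S k).c * (Nat.card {x : Fin (S k).M → F // (S k).H.eval₂ φ x ≠ 0} : ℤ)

end sums

section conditions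

variable {K : Type} [Field K] [Algebra K Qbar]

/-- The matrix `M` maps the coordinate plane `(e_j, e_(n+j))` to the plane with the number `τ j`, for
all `j`. -/
def PermutesPlanes {n : ℕ} {R : Type} [CommRing R] (τ : Equiv.Perm (Fin n))
    (M : Matrix (Fin n ⊕ Fin n) (Fin n ⊕ Fin n) R) : Prop :=
  ∀ i j, i ≠ τ j → M (Sum.inl i) (Sum.inl j) = 0 ∧ M (Sum.inl i) (Sum.inr j) = 0 ∧
    M (Sum.inr i) (Sum.inl j) = 0 ∧ M (Sum.inr i) (Sum.inr j) = 0

/-- Condition (J) on the function `T` of the finite fields: it is the function `charSum` of a family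
`S`, and there is a continuous homomorphism `h` from the Galois group to the group of the invertible
`2g × 2g`-matrices over `ℤ_[p]`, the trace of `h` at Frobenius elements being congruent to the numbers
of points `pointCount` of the same family modulo `|F| - 1`, such that one of the following is true.

* For some transitive group `P` of permutations of the `g` coordinate planes every symplectic matrix
  over `ZMod p` that permutes these planes by an element of `P` is `h(σ)` modulo `p` for some `σ`; that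
  is, the image of `h` modulo `p` contains the wreath product of `SL_2` over `ZMod p` and `P`.
* `p = 2`, `g ≥ 3`, and there is a quadratic form `q` over `ZMod 2` whose polar form is the standard
  alternating form such that every matrix that preserves `q` is `h(σ)` modulo `2` for some `σ`. -/
def ConditionJ (p : ℕ) [Fact p.Prime] (m : ℕ) (ζ : 𝓞 K)
    (T : ∀ (F : Type) [Field F] [Fintype F], (𝓞 K →+* F) → 𝓞 K) : Prop :=
  ∃ (s : ℕ) (S : Fin s → Term K) (g : ℕ)
    (h : (Qbar ≃ₐ[K] Qbar) →* Matrix (Fin g ⊕ Fin g) (Fin g ⊕ Fin g) ℤ_[p]),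
    (∀ (F : Type) [Field F] [Fintype F] (φ : 𝓞 K →+* F), T F φ = charSum m ζ S φ) ∧
    Continuous h ∧
    AtFrobenius (fun F _ _ φ σ =>
      (Fintype.card F : ℤ_[p]) - 1 ∣ (h σ).trace - (pointCount S φ : ℤ_[p])) ∧
    ((∃ P : Subgroup (Equiv.Perm (Fin g)), (∀ i j, ∃ τ ∈ P, τ i = j) ∧
        ∀ τ ∈ P, ∀ M ∈ Matrix.symplecticGroup (Fin g) (ZMod p), PermutesPlanes τ M →
          ∃ σ, (h σ).map PadicInt.toZMod = M) ∨
      (p = 2 ∧ 3 ≤ g ∧ ∃ q : (Fin g ⊕ Fin g → ZMod p) → ZMod p,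
        (∀ x y, q (x + y) = q x + q y + x ⬝ᵥ Matrix.mulVec (Matrix.J (Fin g) (ZMod p)) y) ∧
        ∀ M : Matrix (Fin g ⊕ Fin g) (Fin g ⊕ Fin g) (ZMod p), (∀ x, q (M.mulVec x) = q x) →
          ∃ σ, (h σ).map PadicInt.toZMod = M))

/-- Some element of the Galois group interchanges two of the roots of `P` and fixes all other roots
of `P`. -/
def HasTransposition (P : (𝓞 K)[X]) : Prop :=
  ∃ (g : Qbar ≃ₐ[K] Qbar) (x y : Qbar), x ≠ y ∧ aeval x P = 0 ∧ aeval y P = 0 ∧ g x = y ∧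
    g y = x ∧ ∀ z : Qbar, aeval z P = 0 → z ≠ x → z ≠ y → g z = z

/-- Condition (W) on the function `T` of the finite fields: `T(F)` is the sum of the `m`-th power
residue symbols of `D(t) (h(x) - t)` over all `(t, x)` in `F × F`, with monic polynomials `D`, `h`,
the degree of `h` is an odd prime different from `p`, `D(h(x))` is irreducible over `K`, and some
element of the Galois group interchanges two of the roots of `D(h(x))` and fixes the others. -/
def ConditionW (p m : ℕ) (ζ : 𝓞 K)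
    (T : ∀ (F : Type) [Field F] [Fintype F], (𝓞 K →+* F) → 𝓞 K) : Prop :=
  ∃ D h : (𝓞 K)[X], D.Monic ∧ h.Monic ∧ h.natDegree.Prime ∧ h.natDegree ≠ 2 ∧ h.natDegree ≠ p ∧
    Irreducible ((D.comp h).map (algebraMap (𝓞 K) K)) ∧ HasTransposition (D.comp h) ∧
    ∀ (F : Type) [Field F] [Fintype F] (φ : 𝓞 K →+* F), T F φ =
      ∑ P : F × F, residueSymbol m ζ φ (D.eval₂ φ P.1 * (h.eval₂ φ P.2 - P.1))

end conditions

section representations

variable {K : Type} [Field K] [Algebra K Qbar] {ℓ : ℕ} [Fact ℓ.Prime] {d : ℕ}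

/-- The representation `ρ` of the Galois group over an algebraic closure of `ℚ_ℓ` is continuous, and
its traces at Frobenius elements are the numbers `T(F)` (`K` is embedded by `ι`). -/
structure HasTraces (T : ∀ (F : Type) [Field F] [Fintype F], (𝓞 K →+* F) → 𝓞 K)
    (ι : K →+* PadicAlgCl ℓ)
    (ρ : (Qbar ≃ₐ[K] Qbar) →* Matrix (Fin d) (Fin d) (PadicAlgCl ℓ)) : Prop where
  continuous : Continuous ρ
  traces : AtFrobenius fun F _ _ φ σ => (ρ σ).trace = ι (T F φ : 𝓞 K)

/-- The matrix `ρ(1)(σ)` of the twist of `ρ` by the `ℓ`-adic cyclotomic character. -/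
noncomputable def twist (ρ : (Qbar ≃ₐ[K] Qbar) →* Matrix (Fin d) (Fin d) (PadicAlgCl ℓ))
    (σ : Qbar ≃ₐ[K] Qbar) : Matrix (Fin d) (Fin d) (PadicAlgCl ℓ) :=
  algebraMap ℚ_[ℓ] (PadicAlgCl ℓ)
    (algebraMap ℤ_[ℓ] ℚ_[ℓ] (cyclotomicCharacter Qbar ℓ (σ : Qbar ≃+* Qbar))) • ρ σ

/-- Some eigenvalue of some matrix `ρ(1)(σ)` is not a root of unity. -/
def NotAllRootsOfUnity (ρ : (Qbar ≃ₐ[K] Qbar) →* Matrix (Fin d) (Fin d) (PadicAlgCl ℓ)) : Prop :=
  ∃ (σ : Qbar ≃ₐ[K] Qbar) (x : PadicAlgCl ℓ),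
    (twist ρ σ).charpoly.IsRoot x ∧ ∀ k : ℕ, 0 < k → x ^ k ≠ 1

/-- No open subgroup `H` of the Galois group acts trivially on a nonzero subquotient `W₂ / W₁` of
`ρ(1)`. -/
def NoTateClasses (ρ : (Qbar ≃ₐ[K] Qbar) →* Matrix (Fin d) (Fin d) (PadicAlgCl ℓ)) : Prop :=
  ∀ H : Subgroup (Qbar ≃ₐ[K] Qbar), IsOpen (H : Set (Qbar ≃ₐ[K] Qbar)) →
    ∀ W₁ W₂ : Submodule (PadicAlgCl ℓ) (Fin d → PadicAlgCl ℓ), W₁ ≤ W₂ →
      (∀ σ ∈ H, ∀ x ∈ W₂, (twist ρ σ).mulVec x - x ∈ W₁) → W₁ = W₂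

end representations

end Pool.Agent.BranchCurve
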