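import Pool.Agent.Lib_helper13.BC.Sec
import Pool.Agent.Lib_helper13.BC.Wt
import Pool.Agent.Lib_helper46.DP.EQ

/-!
# Subquotients with finite image
-/

set_option autoImplicit false

namespace Pool.Agent.BC

open Equiv

/-- **The dimension of a subquotient with finite image.** -/
theorem dm_main {G 𝒢 Δ k V : Type} [Group G] [Group 𝒢] [Finite 𝒢] [Fintype Δ]
    [Field k] [IsAlgClosed k] [CharZero k] [AddCommGroup V] [Module k V] [FiniteDimensional k V]
    (π : Representation k G V) {A B : Submodule k V} (hA : ∀ t, ∀ x ∈ A, π t x ∈ A)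
    (hB : ∀ t, ∀ x ∈ B, π t x ∈ B) (hAB : ¬B ≤ A) (M : Subgroup G) [M.Normal]
    [M.FiniteIndex] (hM : ∀ g ∈ M, ∀ x ∈ B, π g x - x ∈ A) (Φ : G →* 𝒢) {m : ℕ} [NeZero m]
    (hm3 : 2 < m) (hm : m.Prime ∨ m = 4) {r e : ℕ} [Fact r.Prime] (hmr : m = r ^ e) {q : ℕ}
    [Fact q.Prime] (hrq : r ≠ q) (T : Multiplicative (Δ → ZMod m) →* 𝒢)
    (hTinj : Function.Injective T) (hTs : ∀ a, ∃ g, Φ g = T a)
    (hK : ∀ g : G, Φ g = 1 → ∃ s : ℕ, g ^ q ^ s ∈ M)
    (hfull : ∀ (g : G) (a : Δ → ZMod m), (∀ δ, a δ ≠ 0) → Φ g = T (Multiplicative.ofAdd a) →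
      ∀ v ∈ B, π g v - v ∈ A → v ∈ A)
    (hnor : ∀ (δ₀ δ : Δ) (c : (ZMod m)ˣ), ∃ (τ : Perm Δ) (g : G), τ δ₀ = δ ∧ ∀ a : Δ → ZMod m,
      Φ g * T (Multiplicative.ofAdd a) * (Φ g)⁻¹ =
        T (Multiplicative.ofAdd fun δ => (c : ZMod m) * a (τ⁻¹ δ))) :
    Fintype.card Δ * m.totient ≤ Module.finrank k (B ⧸ A.comap B.subtype) := by
  classical
  let M₁ : Subgroup G := M ⊓ Φ.ker
  have hM₁ : M₁.Normal := inferInstance
  have hkfi : Φ.ker.FiniteIndex := inferInstance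
  have hfi : M₁.FiniteIndex := inferInstance
  have hfin : Finite (G ⧸ M₁) := inferInstance
  let φ : G ⧸ M₁ →* 𝒢 := QuotientGroup.lift M₁ Φ inf_le_right
  let ρ : Representation k (G ⧸ M₁) (B ⧸ A.comap B.subtype) :=
    QuotientGroup.lift M₁ (DP.subquo π A B hA hB) (by
      intro g hg
      rw [MonoidHom.mem_ker]
      refine Submodule.linearMap_qext _ (LinearMap.ext fun x => ?_)
      change (A.comap B.subtype).mkQ _ = (A.comap B.subtype).mkQ _
      rw [← sub_eq_zero, ← map_sub, Submodule.mkQ_apply, Submodule.Quotient.mk_eq_zero]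
      exact hM g hg.1 x.1 x.2)
  have hφmk : ∀ g : G, φ (QuotientGroup.mk g) = Φ g := fun g => rfl
  have hρmk : ∀ g : G, ρ (QuotientGroup.mk g) = DP.subquo π A B hA hB g := fun g => rfl
  have hcard : Nat.card (Multiplicative (Δ → ZMod m)) = r ^ (e * Fintype.card Δ) := by
    rw [Nat.card_congr (Multiplicative.toAdd (α := Δ → ZMod m)), Nat.card_fun, Nat.card_zmod,
      Nat.card_eq_fintype_card, pow_mul, ← hmr]
  obtain ⟨p, hp, hpn⟩ := sec_main (q := q) hrq hcard T hTinj φ (by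
    intro γ hγ
    obtain ⟨g, rfl⟩ := QuotientGroup.mk_surjective γ
    rw [hφmk] at hγ
    obtain ⟨s, hs⟩ := hK g hγ
    refine ⟨s, ?_⟩
    rw [← QuotientGroup.mk_pow, QuotientGroup.eq_one_iff]
    have h1 : g ^ q ^ s ∈ Φ.ker := by rw [MonoidHom.mem_ker, map_pow, hγ, one_pow]
    exact ⟨hs, h1⟩) (by
    intro a
    obtain ⟨g, hg⟩ := hTs a
    exact ⟨QuotientGroup.mk g, hg⟩)
  have hntr : Nontrivial (B ⧸ A.comap B.subtype) := by
    rw [Submodule.Quotient.nontrivial_iff]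
    intro h
    apply hAB
    intro x hx
    have h1 : (⟨x, hx⟩ : B) ∈ A.comap B.subtype := by
      rw [h]
      exact Submodule.mem_top
    exact h1
  refine wt_main hm3 hm p ρ ?_ ?_
  · intro a ha v hv
    obtain ⟨g, hg⟩ := QuotientGroup.mk_surjective (p (Multiplicative.ofAdd a))
    obtain ⟨w, rfl⟩ := Submodule.mkQ_surjective _ v
    have hgφ : Φ g = T (Multiplicative.ofAdd a) := by
      rw [← hφmk, hg, hp]
    rw [← hg, hρmk, DP.subquo_mk, ← sub_eq_zero, ← map_sub, Submodule.mkQ_apply,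
      Submodule.Quotient.mk_eq_zero] at hv
    rw [Submodule.mkQ_apply, Submodule.Quotient.mk_eq_zero]
    exact hfull g a ha hgφ w.1 w.2 hv
  · intro δ₀ δ c
    obtain ⟨τ, g, hτ, hg⟩ := hnor δ₀ δ c
    obtain ⟨ν, hν⟩ := hpn (QuotientGroup.mk g)
      (fun a => Multiplicative.ofAdd fun δ => (c : ZMod m) * a.toAdd (τ⁻¹ δ)) (by
        intro a
        rw [hφmk]
        exact hg a.toAdd)
    exact ⟨τ, ν, hτ, fun a => hν (Multiplicative.ofAdd a)⟩

end Pool.Agent.BC
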