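import Pool.Agent.Lib_helper13.BC.Dm
import Pool.Agent.Lib_helper46.DP.EM

/-!
# Families whose residual representation has a large group: the main theorem
-/

set_option autoImplicit false

namespace Pool.Agent.BC

open NumberField Polynomial Topology Pool.Agent.TT Pool.Agent.TB Pool.Agent.TF Pool.Agent.UI
open Pool.Agent.TU Pool.Agent.RF Pool.Agent.UB
open Equiv (Perm)

section final

variable {K : Type} [Field K] [NumberField K] [Algebra K Qbar] {p a : ℕ} [hp : Fact p.Prime]
  {ζ : 𝓞 K}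

/-- **The main theorem.** -/
theorem bm_main (hζ : IsPrimitiveRoot ζ (p ^ a)) (ha : 0 < a) {s : ℕ} (S : Fin s → Stratum K)
    (ip : K →+* ℂ_[p]) {d : ℕ} (R : Rep K p d)
    (hR : SumRealization R ip (p ^ a) ζ S) {r : ℕ} [Fact r.Prime] (ir : K →+* ℂ_[r])
    {d' : ℕ} (X : Rep K r d') (hX : SumRealization X ir (p ^ a) ζ S)
    (g₀ : Qbar ≃ₐ[K] Qbar) (x₀ : ℂ_[r]) (hx₀ : (cycC r g₀ • X g₀).charpoly.IsRoot x₀)
    (hx₀' : ∀ n : ℕ, 0 < n → x₀ ^ n ≠ 1) {ℓ : ℕ} [Fact ℓ.Prime] (il : K →+* PadicAlgCl ℓ)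
    {V : Type} [AddCommGroup V] [Module (PadicAlgCl ℓ) V] [Module.Finite (PadicAlgCl ℓ) V]
    (π : Representation (PadicAlgCl ℓ) (Qbar ≃ₐ[K] Qbar) V)
    (hπ : SumTraces (fun σ => LinearMap.trace (PadicAlgCl ℓ) V (π σ)) il (p ^ a) ζ S)
    {𝒢 Δ : Type} [Group 𝒢] [Finite 𝒢] [Fintype Δ] (Φ : (Qbar ≃ₐ[K] Qbar) →* 𝒢)
    (hΦ : ∀ g : Qbar ≃ₐ[K] Qbar, {y : Qbar ≃ₐ[K] Qbar | Φ y = Φ g} ∈ 𝓝 g)
    {m : ℕ} [NeZero m] (hm3 : 2 < m) (hm : m.Prime ∨ m = 4) {b c : ℕ} [Fact b.Prime]
    (hmb : m = b ^ c) (hbp : b ≠ p) (T : Multiplicative (Δ → ZMod m) →* 𝒢)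
    (hTinj : Function.Injective T) (hTs : ∀ t, ∃ g, Φ g = T t)
    (hnor : ∀ (δ₀ δ : Δ) (c : (ZMod m)ˣ), ∃ (τ : Perm Δ) (g : Qbar ≃ₐ[K] Qbar), τ δ₀ = δ ∧
      ∀ t : Δ → ZMod m, Φ g * T (Multiplicative.ofAdd t) * (Φ g)⁻¹ =
        T (Multiplicative.ofAdd fun δ => (c : ZMod m) * t (τ⁻¹ δ)))
    (hd' : d = Fintype.card Δ * m.totient)
    (hfixed : ∀ g : Qbar ≃ₐ[K] Qbar, Φ g = 1 → residuallyOne (R g) = d)
    (hfull : ∀ (g : Qbar ≃ₐ[K] Qbar) (t : Δ → ZMod m), (∀ δ, t δ ≠ 0) →
      Φ g = T (Multiplicative.ofAdd t) → residuallyOne (R g) = 0) :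
    Pool.Agent.RF.NoTateClasses π 1 := by
  classical
  have hac : Algebra.IsAlgebraic ℚ Qbar := AlgebraicClosure.isAlgebraic ℚ
  have hgal := Pool.Agent.TE.isGalois_Qbar (K := K)
  have hm1 : Fact (1 < m) := ⟨by omega⟩
  -- the twisted representations
  set π' := Pool.Agent.UB.twist π 1 tv_cyc_mul tv_cyc_one with hπ'
  set R' := Pool.Agent.TBL.twist R 1 with hR'
  have hcomp : Compatible ip il R' π' := fn_comp S ip R hR.traces il π hπ 1
  have hcont : ∀ {q : ℕ} [Fact q.Prime] {n : ℕ}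
      (X : (Qbar ≃ₐ[K] Qbar) →* Matrix (Fin n) (Fin n) ℂ_[q]), Continuous X →
        Continuous (Pool.Agent.TBL.twist X 1) := by
    intro q _ n X hX
    change Continuous (fun g => cycC q g ^ 1 • X g)
    exact ((cycC_continuous (p := q) (K := K)).pow 1).smul hX
  have hR'c := hcont R hR.continuous
  have hdimV : Module.finrank (PadicAlgCl ℓ) V = d := by
    obtain ⟨t, -, f, hf1, hf2⟩ := ui_dense hcomp 1 Set.univ Filter.univ_mem
    rw [← LinearMap.charpoly_natDegree (π' t), hf2, natDegree_map, ← natDegree_map ip, ← hf1,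
      Matrix.charpoly_natDegree_eq_dim, Fintype.card_fin]
  intro H hH W₁ W₂ hW hTate
  by_contra hne
  obtain ⟨N', hN'⟩ := ProfiniteGrp.exist_openNormalSubgroup_sub_open_nhds_of_one hH H.one_mem
  let N : Subgroup (Qbar ≃ₐ[K] Qbar) := N'.toSubgroup
  have hNn : N.Normal := N'.isNormal'
  have hNo : IsOpen (N : Set (Qbar ≃ₐ[K] Qbar)) := N'.isOpen'
  have hfi : N.FiniteIndex :=
    haveI := N.quotient_finite_of_isOpen hNo
    Subgroup.finiteIndex_of_finite_quotient
  have hTN : ∀ σ ∈ N, ∀ x ∈ W₂, π' σ x - x ∈ W₁ := fun σ hσ => hTate σ (hN' hσ)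
  obtain ⟨u, hu⟩ := hTs (Multiplicative.ofAdd fun _ => 1)
  have hu0 : residuallyOne (R u) = 0 := hfull u (fun _ => 1) (fun _ => one_ne_zero) hu
  -- a stable subquotient
  obtain ⟨A, B, hA, hB, hAB, hBA, hNAB⟩ : ∃ A B : Submodule (PadicAlgCl ℓ) V,
      (∀ t, ∀ x ∈ A, π' t x ∈ A) ∧ (∀ t, ∀ x ∈ B, π' t x ∈ B) ∧ A ≤ B ∧ ¬B ≤ A ∧
      ∀ g ∈ N, ∀ x ∈ B, π' g x - x ∈ A := by
    by_contra hcon
    push Not at hcon
    have huHT : u ∈ HT π' N := by
      intro A B hAB hA hB hNAB x hx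
      by_cases hBA : B ≤ A
      · exact A.sub_mem (hA _ _ (hBA hx)) (hBA hx)
      · obtain ⟨g, hg, y, hy, hgy⟩ := hcon A B hA hB hAB hBA
        exact absurd (hNAB g hg y hy) hgy
    have h1 := ui_bound hR'c hcomp N hNo huHT W₁ W₂ hW hTN
    have h2 := fn_mult hζ ha R 1 u
    rw [hu0] at h2
    exact hne (Submodule.eq_of_le_of_finrank_le hW (by omega))
  obtain ⟨M, hMn, hNM, hM⟩ := ht_group π' N
  have hMfi : M.FiniteIndex := Subgroup.finiteIndex_of_le hNM
  have hMAB : ∀ g ∈ M, ∀ x ∈ B, π' g x - x ∈ A := by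
    intro g hg
    have h1 : g ∈ HT π' N := by
      rw [← hM]
      exact hg
    exact h1 A B hAB hA hB hNAB
  have hdim := dm_main π' hA hB hBA M hMAB Φ hm3 hm hmb hbp T hTinj hTs
    (by
      -- elements in the kernel
      intro g hg
      set e := N.index with he
      have he0 : e ≠ 0 := hfi.index_ne_zero
      obtain ⟨s, o, ho, heo⟩ := Nat.exists_eq_pow_mul_and_not_dvd he0 p hp.out.ne_one
      refine ⟨s, ?_⟩
      set g' := g ^ p ^ s with hg'
      have ho0 : 0 < o := Nat.pos_of_ne_zero fun h0 => ho (h0 ▸ dvd_zero p)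
      have hg'N : g' ^ o ∈ N := by
        rw [hg', ← pow_mul, ← heo]
        exact N.pow_index_mem g
      have hg'fix : Φ g' = 1 := by rw [hg', map_pow, hg, one_pow]
      have hU1 : {y : Qbar ≃ₐ[K] Qbar | g'⁻¹ * y ∈ N} ∈ 𝓝 g' :=
        (hNo.preimage (continuous_const_mul g'⁻¹)).mem_nhds (by
          show g'⁻¹ * g' ∈ N
          rw [inv_mul_cancel]
          exact N.one_mem)
      have hU2 := hΦ g'
      obtain ⟨t, ⟨htN, htx⟩, f, hf1, hf2⟩ := ui_dense hcomp g' _ (Filter.inter_mem hU1 hU2)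
      have htfix : Φ t = 1 := Eq.trans htx hg'fix
      have htN' : t ^ o ∈ N := by
        have h1 : (QuotientGroup.mk t : (Qbar ≃ₐ[K] Qbar) ⧸ N) = QuotientGroup.mk g' :=
          (QuotientGroup.eq.2 htN).symm
        rw [← QuotientGroup.eq_one_iff, QuotientGroup.mk_pow, h1, ← QuotientGroup.mk_pow,
          QuotientGroup.eq_one_iff]
        exact hg'N
      have ht : t ∈ HT π' N := by
        refine ui_one π' N t ho0 htN' ?_
        rw [hf2]
        refine ui_transfer ip il f ho0 ?_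
        intro y hy hroot
        rw [← hf1] at hroot
        -- all eigenvalues of `R t` are congruent to `1`
        have hall1 : ∀ x ∈ (R t).charpoly.roots, ‖x - 1‖ < 1 := by
          have h1 := hfixed t htfix
          have h2 : Multiset.card (R t).charpoly.roots = d := by
            rw [IsAlgClosed.card_roots_eq_natDegree, Matrix.charpoly_natDegree_eq_dim,
              Fintype.card_fin]
          have h3 : (R t).charpoly.roots.filter (fun x => ‖x - 1‖ < 1) = (R t).charpoly.roots := by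
            apply Multiset.eq_of_le_of_card_le (Multiset.filter_le _ _)
            rw [h2]
            exact h1.ge
          exact Multiset.filter_eq_self.1 h3
        have hc0 : cycC p t ≠ 0 := cycC_ne_zero t
        have hc1 : ‖cycC p t - 1‖ < 1 := fn_cyc hζ ha t
        have h4 : ((cycC p t)⁻¹ * y) ∈ (R t).charpoly.roots := by
          rw [mem_roots (Matrix.charpoly_monic _).ne_zero]
          have h7 : R' t = cycC p t • R t := by
            change cycC p t ^ 1 • R t = _
            rw [pow_one]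
          rw [h7] at hroot
          exact DP.em_smul (R t) hc0 hroot
        have h5 := hall1 _ h4
        refine DP.pr_eq_one ho hy ?_
        have h8 : y - 1 = cycC p t * ((cycC p t)⁻¹ * y - 1) + (cycC p t - 1) := by
          rw [mul_sub, mul_inv_cancel_left₀ hc0]
          ring
        rw [h8]
        refine lt_of_le_of_lt (IsUltrametricDist.norm_add_le_max _ _) (max_lt ?_ hc1)
        rw [norm_mul, ms_norm_of_near hc1, one_mul]
        exact h5
      have h6 : t ∈ M := by
        have : (t : Qbar ≃ₐ[K] Qbar) ∈ (M : Set (Qbar ≃ₐ[K] Qbar)) := by rw [hM]; exact ht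
        exact this
      have h7 : g' = t * (g'⁻¹ * t)⁻¹ := by group
      rw [h7]
      exact M.mul_mem h6 (M.inv_mem (hNM htN)))
    (by
      -- elements without eigenvalue 1
      intro g w hw hgw v hv hgv
      by_contra hvA
      have hU1 : {y : Qbar ≃ₐ[K] Qbar | g⁻¹ * y ∈ N} ∈ 𝓝 g :=
        (hNo.preimage (continuous_const_mul g⁻¹)).mem_nhds (by
          show g⁻¹ * g ∈ N
          rw [inv_mul_cancel]
          exact N.one_mem)
      have hU2 := hΦ g
      obtain ⟨t, ⟨htN, htx⟩, f, hf1, hf2⟩ := ui_dense hcomp g _ (Filter.inter_mem hU1 hU2)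
      have hres : residuallyOne (R t) = 0 := hfull t w hw (Eq.trans htx hgw)
      have h1 : π' t v - v ∈ A := by
        have h2 : π' t v - v = π' g (π' (g⁻¹ * t) v - v) + (π' g v - v) := by
          rw [map_sub, ← Module.End.mul_apply, ← map_mul, mul_inv_cancel_left]
          abel
        rw [h2]
        exact A.add_mem (hA _ _ (hNAB _ htN _ hv)) hgv
      have h2 : (π' t).charpoly.IsRoot 1 := DP.eq_root (π' t) A (hA t) h1 hvA
      have h3 : 0 < (π' t).charpoly.rootMultiplicity 1 :=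
        (rootMultiplicity_pos (LinearMap.charpoly_monic _).ne_zero).2 h2
      have h4 : (π' t).charpoly.rootMultiplicity 1 = (R' t).charpoly.rootMultiplicity 1 := by
        rw [hf1, hf2, ← map_one il, ← Polynomial.eq_rootMultiplicity_map il.injective, ← map_one ip,
          ← Polynomial.eq_rootMultiplicity_map ip.injective]
      have h5 := fn_mult hζ ha R 1 t
      rw [hres, ← hR'] at h5
      omega)
    hnor
  -- the subquotient is everything
  have hfr1 : Module.finrank (PadicAlgCl ℓ) (B ⧸ A.comap B.subtype) +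
      Module.finrank (PadicAlgCl ℓ) (A.comap B.subtype) = Module.finrank (PadicAlgCl ℓ) B :=
    Submodule.finrank_quotient_add_finrank _
  have hfr2 : Module.finrank (PadicAlgCl ℓ) B ≤ Module.finrank (PadicAlgCl ℓ) V :=
    Submodule.finrank_le B
  have hBtop : B = ⊤ := Submodule.eq_top_of_finrank_eq (by omega)
  have hA0 : A.comap B.subtype = ⊥ := Submodule.finrank_eq_zero.1 (by omega)
  have hAbot : A = ⊥ := by
    rw [Submodule.eq_bot_iff]
    intro x hx
    have h1 : (⟨x, hAB hx⟩ : B) ∈ A.comap B.subtype := hx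
    rw [hA0, Submodule.mem_bot] at h1
    exact congrArg Subtype.val h1
  have htriv : ∀ g ∈ N, π' g = 1 := by
    intro g hg
    refine LinearMap.ext fun x => ?_
    have h1 := hNAB g hg x (by rw [hBtop]; exact Submodule.mem_top)
    rw [hAbot, Submodule.mem_bot, sub_eq_zero] at h1
    exact h1
  -- all eigenvalues of the other representation are roots of unity
  set X' := Pool.Agent.TBL.twist X 1 with hX'
  have hcompX : Compatible ir il X' π' := fn_comp S ir X hX.traces il π hπ 1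
  have hX'c := hcont X hX.continuous
  set e := N.index with he
  have he0 : 0 < e := Nat.pos_of_ne_zero hfi.index_ne_zero
  have hx₀e : x₀ ^ e ≠ 1 := hx₀' e he0
  have hX'g₀ : x₀ ^ e ∈ (X' (g₀ ^ e)).charpoly.roots := by
    rw [map_pow, Pool.Agent.OS.nw_pow, Multiset.mem_map]
    refine ⟨x₀, ?_, rfl⟩
    rw [mem_roots (Matrix.charpoly_monic _).ne_zero]
    have h1 : X' g₀ = cycC r g₀ • X g₀ := by
      change cycC r g₀ ^ 1 • X g₀ = _
      rw [pow_one]
    rw [h1]
    exact hx₀
  have hopen : IsOpen {y : Qbar ≃ₐ[K] Qbar |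
      (X' (y ^ e)).charpoly.eval (x₀ ^ e) ≠ (x₀ ^ e - 1) ^ d'} :=
    isOpen_ne.preimage ((ui_cont_eval (x₀ ^ e)).comp (hX'c.comp (continuous_pow e)))
  obtain ⟨t, ht, f, hf1, hf2⟩ := ui_dense hcompX g₀ _ (hopen.mem_nhds (by
    show (X' (g₀ ^ e)).charpoly.eval (x₀ ^ e) ≠ (x₀ ^ e - 1) ^ d'
    have h1 : (X' (g₀ ^ e)).charpoly.eval (x₀ ^ e) = 0 :=
      (mem_roots (Matrix.charpoly_monic _).ne_zero).1 hX'g₀
    rw [h1]
    exact (pow_ne_zero _ (sub_ne_zero.2 hx₀e)).symm))
  apply ht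
  have hroots : ∀ y ∈ (X' (t ^ e)).charpoly.roots, y = 1 := by
    intro y hy
    rw [map_pow, Pool.Agent.OS.nw_pow, Multiset.mem_map] at hy
    obtain ⟨z, hz, rfl⟩ := hy
    have hf0 : f ≠ 0 := by
      intro h0
      rw [h0, Polynomial.map_zero] at hf1
      exact (Matrix.charpoly_monic _).ne_zero hf1
    refine DP.em_transfer il ir hf0 ?_ z ?_
    · intro x hx
      rw [← hf2, ← Module.End.hasEigenvalue_iff_isRoot_charpoly] at hx
      obtain ⟨v, hv⟩ := hx.exists_hasEigenvector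
      have h1 : ∀ i : ℕ, (π' t ^ i) v = x ^ i • v := by
        intro i
        induction i with
        | zero => rw [pow_zero, pow_zero, one_smul]; rfl
        | succ i ih =>
          rw [pow_succ, Module.End.mul_apply, hv.apply_eq_smul, map_smul, ih, smul_smul, pow_succ']
      have h2 := h1 e
      rw [← map_pow, htriv _ (N.pow_index_mem t), Module.End.one_apply] at h2
      have h3 : (x ^ e - 1) • v = 0 := by rw [sub_smul, one_smul, ← h2, sub_self]
      rcases smul_eq_zero.1 h3 with h4 | h4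
      · exact sub_eq_zero.1 h4
      · exact absurd h4 hv.2
    · rw [← hf1]
      exact (mem_roots (Matrix.charpoly_monic _).ne_zero).1 hz
  have hcardroots : Multiset.card (X' (t ^ e)).charpoly.roots = d' := by
    rw [IsAlgClosed.card_roots_eq_natDegree, Matrix.charpoly_natDegree_eq_dim, Fintype.card_fin]
  have hrep : (X' (t ^ e)).charpoly.roots = Multiset.replicate d' 1 :=
    Multiset.eq_replicate.2 ⟨hcardroots, hroots⟩
  have hprod := (IsAlgClosed.splits (X' (t ^ e)).charpoly).eq_prod_roots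
  rw [(Matrix.charpoly_monic _).leadingCoeff, C_1, one_mul, hrep, Multiset.map_replicate,
    Multiset.prod_replicate] at hprod
  rw [hprod, eval_pow, eval_sub, eval_X, eval_C]

end final

end Pool.Agent.BC
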