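import Pool.Agent.Lib_helper13.BC.Oq
import Pool.Agent.Lib_helper46.DP.Double

/-!
# Cyclic covers of surfaces: the final form of the theorem
-/

set_option autoImplicit false

namespace Pool.Agent.BC

open NumberField Polynomial Topology Pool.Agent.TT Pool.Agent.TB Pool.Agent.TF Pool.Agent.UI
open Pool.Agent.RF

section final

variable {K : Type} [Field K] [Algebra K Qbar]
  {T : ∀ (F : Type) [Field F] [Fintype F], (𝓞 K →+* F) → 𝓞 K}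

theorem fn_sum {ℓ : ℕ} [Fact ℓ.Prime] {d m : ℕ} {ζ : 𝓞 K} {s : ℕ} {S : Fin s → BranchCurve.Term K}
    (hT : ∀ (F : Type) [Field F] [Fintype F] (φ : 𝓞 K →+* F), T F φ = BranchCurve.charSum m ζ S φ)
    {ι : K →+* PadicAlgCl ℓ} {ρ : (Qbar ≃ₐ[K] Qbar) →* Matrix (Fin d) (Fin d) (PadicAlgCl ℓ)}
    (hρ : BranchCurve.HasTraces T ι ρ) :
    SumTraces (fun σ => (ρ σ).trace) ι m ζ (toS S) := by
  obtain ⟨B, hB⟩ := hρ.traces
  refine ⟨B, fun q hq hqB 𝔓 h𝔓 hq𝔓 F _ _ φ hφ σ hσ => ?_⟩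
  have h1 := hB q hq hqB 𝔓 h𝔓 hq𝔓 F φ hφ σ hσ
  beta_reduce at h1 ⊢
  rw [h1, hT]
  rfl

theorem fn_sum' {ℓ : ℕ} [Fact ℓ.Prime] {d m : ℕ} {ζ : 𝓞 K} {s : ℕ} {S : Fin s → BranchCurve.Term K}
    (hT : ∀ (F : Type) [Field F] [Fintype F] (φ : 𝓞 K →+* F), T F φ = BranchCurve.charSum m ζ S φ)
    {ι : K →+* PadicAlgCl ℓ} {ρ : (Qbar ≃ₐ[K] Qbar) →* Matrix (Fin d) (Fin d) (PadicAlgCl ℓ)}
    (hρ : BranchCurve.HasTraces T ι ρ) :
    SumTraces (fun σ => LinearMap.trace (PadicAlgCl ℓ) (Fin d → PadicAlgCl ℓ) (DP.vecRep ρ σ)) ι m ζ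
      (toS S) := by
  obtain ⟨B, hB⟩ := fn_sum hT hρ
  refine ⟨B, fun q hq hqB 𝔓 h𝔓 hq𝔓 F _ _ φ hφ σ hσ => ?_⟩
  have h1 := hB q hq hqB 𝔓 h𝔓 hq𝔓 F φ hφ σ hσ
  beta_reduce at h1 ⊢
  rw [DP.vecRep_trace, h1]

theorem fn_sumC {r : ℕ} [Fact r.Prime] {d m : ℕ} {ζ : 𝓞 K} {s : ℕ} {S : Fin s → BranchCurve.Term K}
    (hT : ∀ (F : Type) [Field F] [Fintype F] (φ : 𝓞 K →+* F), T F φ = BranchCurve.charSum m ζ S φ)
    {ι : K →+* PadicAlgCl r} {ρ : (Qbar ≃ₐ[K] Qbar) →* Matrix (Fin d) (Fin d) (PadicAlgCl r)}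
    (hρ : BranchCurve.HasTraces T ι ρ) :
    SumRealization (DP.extRep ρ) ((algebraMap (PadicAlgCl r) ℂ_[r]).comp ι) m ζ (toS S) := by
  refine ⟨?_, ?_⟩
  · have h1 : Continuous (algebraMap (PadicAlgCl r) ℂ_[r]) :=
      UniformSpace.Completion.continuous_coe _
    exact hρ.continuous.matrix_map h1
  · obtain ⟨B, hB⟩ := fn_sum hT hρ
    refine ⟨B, fun q hq hqB 𝔓 h𝔓 hq𝔓 F _ _ φ hφ σ hσ => ?_⟩
    have h1 := hB q hq hqB 𝔓 h𝔓 hq𝔓 F φ hφ σ hσ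
    beta_reduce at h1 ⊢
    have h2 : ((ρ σ⁻¹).map (algebraMap (PadicAlgCl r) ℂ_[r])).trace =
        algebraMap (PadicAlgCl r) ℂ_[r] (ρ σ⁻¹).trace := by
      rw [Matrix.trace, Matrix.trace, map_sum]
      rfl
    rw [DP.extRep_apply, h2, h1]
    rfl

/-- **The main theorem.** -/
theorem fn_cover [NumberField K] {p a : ℕ} [hp : Fact p.Prime] {ζ : 𝓞 K}
    (hζ : IsPrimitiveRoot ζ (p ^ a)) (ha : 0 < a)
    (hT : BranchCurve.ConditionJ p (p ^ a) ζ T ∨ BranchCurve.ConditionW p (p ^ a) ζ T) {d : ℕ}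
    (ρ : ∀ (ℓ : ℕ) [Fact ℓ.Prime], (K →+* PadicAlgCl ℓ) →
      (Qbar ≃ₐ[K] Qbar) →* Matrix (Fin d) (Fin d) (PadicAlgCl ℓ))
    (hρ : ∀ (ℓ : ℕ) [Fact ℓ.Prime] (ι : K →+* PadicAlgCl ℓ), BranchCurve.HasTraces T ι (ρ ℓ ι))
    (hB : ∃ (r : ℕ) (_ : Fact r.Prime) (ι : K →+* PadicAlgCl r),
      BranchCurve.NotAllRootsOfUnity (ρ r ι))
    (ℓ : ℕ) [Fact ℓ.Prime] (ι : K →+* PadicAlgCl ℓ) : BranchCurve.NoTateClasses (ρ ℓ ι) := by
  classical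
  rcases hT with hT | hT
  · obtain ⟨s, S, g, h, hT, hc, ht, hcase⟩ := hT
    obtain ⟨r, _, ir, g₀, x₀, hx₀, hx₀'⟩ := hB
    let ip : K →+* PadicAlgCl p :=
      (IsAlgClosed.lift (R := ℚ) (S := K) (M := PadicAlgCl p)).toRingHom
    have hx₁ : ∀ n : ℕ, 0 < n → (algebraMap (PadicAlgCl r) ℂ_[r] x₀) ^ n ≠ 1 := by
      intro n hn h1
      apply hx₀' n hn
      apply (algebraMap (PadicAlgCl r) ℂ_[r]).injective
      rw [map_pow, h1, map_one]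
    have hmain : Pool.Agent.RF.NoTateClasses (DP.vecRep (ρ ℓ ι)) 1 := by
      rcases hcase with ⟨P, hP, hw⟩ | ⟨hp2, hg, q, hq, hO⟩
      · by_cases hp2 : p = 2
        · subst hp2
          have h3 : Fact (Nat.Prime 3) := ⟨Nat.prime_three⟩
          exact jm_main hζ ha hc ht P hP hw (m := 3) (by norm_num) (Or.inl Nat.prime_three) (by decide)
            (b := 3) (c := 1) (by norm_num) (by norm_num) rot_three _ (DP.extRep (ρ 2 ip))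
            (fn_sumC hT (hρ 2 ip)) _ (DP.extRep (ρ r ir)) (fn_sumC hT (hρ r ir)) g₀ _
            (DP.fn_eigC hx₀) hx₁ ι _ (fn_sum' hT (hρ ℓ ι))
        · have h3 : Fact (Nat.Prime 2) := ⟨Nat.prime_two⟩
          exact jm_main hζ ha hc ht P hP hw (m := 4) (by norm_num) (Or.inr rfl) (by decide)
            (b := 2) (c := 2) (by norm_num) (fun h => hp2 h.symm) (rot_four hp2) _
            (DP.extRep (ρ p ip)) (fn_sumC hT (hρ p ip)) _ (DP.extRep (ρ r ir))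
            (fn_sumC hT (hρ r ir)) g₀ _ (DP.fn_eigC hx₀) hx₁ ι _ (fn_sum' hT (hρ ℓ ι))
      · subst hp2
        exact oq_main hζ ha hc ht hg q hq hO ip (ρ 2 ip) (fn_sum hT (hρ 2 ip))
          (fn_sumC hT (hρ 2 ip)) _ (DP.extRep (ρ r ir)) (fn_sumC hT (hρ r ir)) g₀ _
          (DP.fn_eigC hx₀) hx₁ ι _ (fn_sum' hT (hρ ℓ ι))
    intro H hH W₁ W₂ hW hT
    refine hmain H hH W₁ W₂ hW ?_
    intro σ hσ x hx
    rw [pow_one, DP.vecRep_apply]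
    have h3 := hT σ hσ x hx
    have h4 : (BranchCurve.twist (ρ ℓ ι) σ).mulVec x = cyc ℓ σ • (ρ ℓ ι σ).mulVec x :=
      Matrix.smul_mulVec _ _ _
    rwa [h4] at h3
  · obtain ⟨D, h, hD, hh, hm, hm2, hmp, hirr, hA, hT⟩ := hT
    have hreal : ∀ (l : ℕ) [Fact l.Prime] (κ : K →+* PadicAlgCl l),
        DP.IsRealization D h (p ^ a) ζ κ (ρ l κ) := by
      intro l _ κ
      refine ⟨(hρ l κ).continuous, ?_⟩
      obtain ⟨B, hB⟩ := (hρ l κ).traces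
      refine ⟨B, fun q hq hqB 𝔓 h𝔓 hq𝔓 F _ _ φ hφ σ hσ => ?_⟩
      have h1 := hB q hq hqB 𝔓 h𝔓 hq𝔓 F φ hφ σ hσ
      beta_reduce at h1 ⊢
      rw [h1, hT]
      rfl
    have h1 : DP.NoTateClasses (ρ ℓ ι) :=
      DP.mn_cover hζ ha hD hh hm hm2 hmp hirr hA ρ hreal hB ℓ ι
    intro H hH W₁ W₂ hW h2
    refine h1 H hH W₁ W₂ hW fun σ hσ x hx => ?_
    have h3 := h2 σ hσ x hx
    have h4 : (BranchCurve.twist (ρ ℓ ι) σ).mulVec x = cyc ℓ σ • (ρ ℓ ι σ).mulVec x :=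
      Matrix.smul_mulVec _ _ _
    rwa [h4] at h3

end final

section double

variable {K : Type} [Field K] {F : Type} [Field F] [Fintype F] (φ : 𝓞 K →+* F)

/-- The sum of the quadratic residue symbols and the number of the points of the double plane. -/
theorem fn_points {ζ : 𝓞 K} (hζ : IsPrimitiveRoot ζ 2) (h2 : ringChar F ≠ 2) (b : F × F → F) :
    ∑ P : F × F, BranchCurve.residueSymbol 2 ζ φ (b P) =
      (((Nat.card {P : F × F × F // P.2.2 ^ 2 = b (P.1, P.2.1)} : ℕ) : ℤ) -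
        (Fintype.card F : ℤ) ^ 2 : ℤ) := by
  classical
  have hζ' : ζ = -1 := hζ.eq_neg_one_of_two_right
  subst hζ'
  have h1 : Nat.card {P : F × F × F // P.2.2 ^ 2 = b (P.1, P.2.1)} =
      ∑ P : F × F, Nat.card {y : F // y ^ 2 = b P} := by
    rw [← Nat.card_sigma]
    exact Nat.card_congr ⟨fun P => ⟨(P.1.1, P.1.2.1), ⟨P.1.2.2, P.2⟩⟩,
      fun Q => ⟨(Q.1.1, Q.1.2, Q.2.1), Q.2.2⟩, fun P => rfl, fun Q => rfl⟩
  have h3 : ∀ b : F, (Nat.card {y : F // y ^ 2 = b} : ℤ) = quadraticChar F b + 1 := by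
    intro b
    rw [← quadraticChar_card_sqrts h2 b, Nat.card_eq_fintype_card, Set.toFinset_card]
    rfl
  have h4 : ∑ P : F × F, BranchCurve.residueSymbol 2 (-1) φ (b P) =
      ∑ P : F × F, ((quadraticChar F (b P) : ℤ) : 𝓞 K) :=
    Finset.sum_congr rfl fun P _ => DP.sm_symbol φ h2 _
  rw [h4, h1, Nat.cast_sum, Finset.sum_congr rfl fun x _ => h3 _, Finset.sum_add_distrib,
    Finset.sum_const, Finset.card_univ, Fintype.card_prod, nsmul_eq_mul, mul_one]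
  have h5 : ((Fintype.card F * Fintype.card F : ℕ) : ℤ) = (Fintype.card F : ℤ) ^ 2 := by
    push_cast
    ring
  rw [h5, add_sub_cancel_right]
  push_cast
  rfl

end double

end Pool.Agent.BC
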