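import Pool.Agent.Lib_helper13.BC.Blk

/-!
# The torus of rotations of the coordinate planes
-/

set_option autoImplicit false

namespace Pool.Agent.BC

open Matrix BranchCurve

section tor

variable {n m : ℕ} [NeZero m] {F : Type} [Field F] {C : Matrix (Fin 2) (Fin 2) F}

theorem rot_val (hC : C ^ m = 1) (x y : ZMod m) : C ^ (x + y).val = C ^ x.val * C ^ y.val := by
  rw [ZMod.val_add, ← pow_add]
  exact (pow_eq_pow_mod _ hC).symm

/-- The rotations of the coordinate planes. -/
noncomputable def torus (n : ℕ) (hC : C ^ m = 1) :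
    Multiplicative (Fin n → ZMod m) →* Matrix (Fin n ⊕ Fin n) (Fin n ⊕ Fin n) F where
  toFun a := blk fun i => C ^ (Multiplicative.toAdd a i).val
  map_one' := by
    have h : (fun i : Fin n => C ^ (Multiplicative.toAdd (1 : Multiplicative (Fin n → ZMod m)) i).val) =
        fun _ => 1 := by
      funext i
      have h1 : Multiplicative.toAdd (1 : Multiplicative (Fin n → ZMod m)) i = 0 := rfl
      rw [h1, ZMod.val_zero, pow_zero]
    rw [h, blk_one]
  map_mul' a b := by
    rw [blk_mul]
    congr 1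
    funext i
    exact rot_val hC _ _

theorem torus_apply (hC : C ^ m = 1) (a : Fin n → ZMod m) :
    torus n hC (Multiplicative.ofAdd a) = blk fun i => C ^ (a i).val := rfl

/-- A rotation without trivial component has no eigenvalue `1`. -/
theorem torus_free (hC : Rot m C) (a : Fin n → ZMod m) (ha : ∀ i, a i ≠ 0) :
    ∃ B, B * (torus n hC.pow (Multiplicative.ofAdd a) - 1) = 1 := by
  refine ⟨blk fun i => (C ^ (a i).val - 1)⁻¹, ?_⟩
  rw [torus_apply, ← blk_one, blk_sub, blk_mul]
  congr 1
  funext i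
  exact Matrix.nonsing_inv_mul _ (Ne.isUnit (hC.free _ (ha i)))

theorem torus_inj (hC : Rot m C) : Function.Injective (torus n hC.pow) := by
  rw [injective_iff_map_eq_one]
  intro a ha
  have h1 : Multiplicative.toAdd a = 0 := by
    funext i
    by_contra hi
    have h2 : blk (fun i => C ^ (Multiplicative.toAdd a i).val) =
        blk (fun _ : Fin n => (1 : Matrix (Fin 2) (Fin 2) F)) := by
      rw [blk_one]
      exact ha
    have h3 := blk_inj h2 i
    apply hC.free _ hi
    rw [h3, sub_self, Matrix.det_zero]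
  exact Multiplicative.toAdd.injective h1

theorem torus_mem (hC : Rot m C) (a : Fin n → ZMod m) :
    torus n hC.pow (Multiplicative.ofAdd a) ∈ symplecticGroup (Fin n) F ∧
      PermutesPlanes 1 (torus n hC.pow (Multiplicative.ofAdd a)) := by
  constructor
  · refine blk_mem fun i => ?_
    rw [Matrix.det_pow, hC.det, one_pow]
  · have h := pp_blk (fun i => C ^ (a i).val) (1 : Equiv.Perm (Fin n))
    rwa [bp_one, mul_one] at h

theorem rot_norm (hC : Rot m C) (c : (ZMod m)ˣ) : ∃ N : Matrix (Fin 2) (Fin 2) F, N.det = 1 ∧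
    ∀ x : ZMod m, N * C ^ x.val = C ^ ((c : ZMod m) * x).val * N := by
  rcases hC.units c with hc | hc
  · refine ⟨1, Matrix.det_one, fun x => ?_⟩
    rw [hc, one_mul, one_mul, mul_one]
  · obtain ⟨N, hN, hNC⟩ := hC.inv
    refine ⟨N, hN, fun x => ?_⟩
    have h1 : ∀ k : ℕ, N * C ^ k = (C ^ (m - 1)) ^ k * N := by
      intro k
      induction k with
      | zero => rw [pow_zero, pow_zero, mul_one, one_mul]
      | succ k ih => rw [pow_succ, ← mul_assoc, ih, mul_assoc, hNC, ← mul_assoc, ← pow_succ]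
    have h2 : (C ^ (m - 1)) ^ x.val = C ^ ((c : ZMod m) * x).val := by
      rw [← pow_mul, pow_eq_pow_mod _ hC.pow, pow_eq_pow_mod (((c : ZMod m) * x).val) hC.pow]
      congr 1
      rw [← ZMod.natCast_eq_natCast_iff']
      have hm : 1 ≤ m := Nat.one_le_iff_ne_zero.2 (NeZero.ne m)
      push_cast [Nat.cast_sub hm]
      rw [ZMod.natCast_zmod_val, ZMod.natCast_zmod_val, hc, ZMod.natCast_self]
      ring
    rw [h1, h2]

/-- The torus is normalized by many elements. -/
theorem torus_norm (hC : Rot m C) (τ : Equiv.Perm (Fin n)) (c : (ZMod m)ˣ) :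
    ∃ (M : Matrix (Fin n ⊕ Fin n) (Fin n ⊕ Fin n) F),
      M ∈ symplecticGroup (Fin n) F ∧ PermutesPlanes τ M ∧ ∀ a : Fin n → ZMod m,
        M * torus n hC.pow (Multiplicative.ofAdd a) =
          torus n hC.pow (Multiplicative.ofAdd fun δ => (c : ZMod m) * a (τ⁻¹ δ)) * M := by
  obtain ⟨N, hN, hNC⟩ := rot_norm hC c
  refine ⟨blk (fun _ => N) * bp τ, mul_mem (blk_mem fun _ => hN) (bp_mem _), pp_blk _ _,
    fun a => ?_⟩
  rw [torus_apply, torus_apply, mul_assoc, bp_blk, ← mul_assoc, ← mul_assoc, blk_mul, blk_mul]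
  congr 2
  funext i
  exact hNC _

end tor

end Pool.Agent.BC
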