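import Pool.Agent.Lib_helper13.BC.Jc
import Pool.Agent.Lib_helper13.BC.Tor
import Pool.Agent.Lib_helper13.BC.Em

/-!
# Condition (J), first alternative
-/

set_option autoImplicit false

namespace Pool.Agent.BC

open NumberField Polynomial Topology Pool.Agent.TT Pool.Agent.TB Pool.Agent.TF Pool.Agent.UI
open Pool.Agent.RF
open Matrix (symplecticGroup)

/-- The family in the notation of the library. -/
def toS {K : Type} [Field K] {s : ℕ} (S : Fin s → BranchCurve.Term K) : Fin s → Stratum K :=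
  fun k => ⟨(S k).M, (S k).H, (S k).c⟩

section jac

variable {K : Type} [Field K] [NumberField K] [Algebra K Qbar] {p a : ℕ} [hp : Fact p.Prime]
  {ζ : 𝓞 K} {s : ℕ} {S : Fin s → BranchCurve.Term K} {g : ℕ}

/-- The representation over `ℂ_[p]`. -/
noncomputable def cRep {d : ℕ} (e : (Fin g ⊕ Fin g) ≃ Fin d)
    (h : (Qbar ≃ₐ[K] Qbar) →* Matrix (Fin g ⊕ Fin g) (Fin g ⊕ Fin g) ℤ_[p]) : Rep K p d where
  toFun σ := cm e (h σ)
  map_one' := by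
    rw [map_one]
    unfold cm
    have h1 : (1 : Matrix (Fin g ⊕ Fin g) (Fin g ⊕ Fin g) ℤ_[p]).map (zc p) = 1 :=
      map_one (zc p).mapMatrix
    rw [h1]
    exact map_one (Matrix.reindexAlgEquiv ℂ_[p] ℂ_[p] e)
  map_mul' σ τ := by
    rw [map_mul]
    unfold cm
    have h1 : (h σ * h τ).map (zc p) = (h σ).map (zc p) * (h τ).map (zc p) :=
      map_mul (zc p).mapMatrix _ _
    rw [h1]
    exact map_mul (Matrix.reindexAlgEquiv ℂ_[p] ℂ_[p] e) _ _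

omit [NumberField K] in
theorem cRep_cont {d : ℕ} (e : (Fin g ⊕ Fin g) ≃ Fin d)
    {h : (Qbar ≃ₐ[K] Qbar) →* Matrix (Fin g ⊕ Fin g) (Fin g ⊕ Fin g) ℤ_[p]} (hc : Continuous h) :
    Continuous (cRep e h) := by
  have h1 : Continuous fun σ => (h σ).map (zc p) := hc.matrix_map zc_cont
  exact h1.matrix_reindex e e

omit [NumberField K] in
theorem cRep_trace {d : ℕ} (e : (Fin g ⊕ Fin g) ≃ Fin d)
    (h : (Qbar ≃ₐ[K] Qbar) →* Matrix (Fin g ⊕ Fin g) (Fin g ⊕ Fin g) ℤ_[p]) (σ : Qbar ≃ₐ[K] Qbar) :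
    (cRep e h σ).trace = zc p (h σ).trace := by
  have h1 : (cRep e h σ).trace = ∑ i, zc p (h σ (e.symm i) (e.symm i)) := rfl
  rw [h1, Matrix.trace, map_sum]
  exact Equiv.sum_comp e.symm fun j => zc p (h σ j j)

omit [NumberField K] in
/-- The relation with the numbers of points. -/
theorem cRep_card {d : ℕ} (e : (Fin g ⊕ Fin g) ≃ Fin d)
    {h : (Qbar ≃ₐ[K] Qbar) →* Matrix (Fin g ⊕ Fin g) (Fin g ⊕ Fin g) ℤ_[p]} (hc : Continuous h)
    (ht : BranchCurve.AtFrobenius (fun F _ _ φ σ =>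
      (Fintype.card F : ℤ_[p]) - 1 ∣ (h σ).trace - (BranchCurve.pointCount S φ : ℤ_[p]))) :
    CardRealization (cRep e h) (1 : Rep K p 0) (toS S) := by
  refine ⟨cRep_cont e hc, continuous_const, ?_⟩
  obtain ⟨B, hB⟩ := ht
  refine ⟨B, fun q hq hqB 𝔓 h𝔓 hq𝔓 F _ _ φ hφ σ hσ => ?_⟩
  have h1 := hB q hq hqB 𝔓 h𝔓 hq𝔓 F φ hφ σ hσ
  have h2 : ((1 : Rep K p 0) σ⁻¹).trace = 0 := by
    unfold Matrix.trace
    exact Finset.sum_empty
  obtain ⟨c, hc'⟩ := h1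
  have h3 : (strataCard φ (toS S) : ℤ) = BranchCurve.pointCount S φ := rfl
  have h4 : zc p (h σ⁻¹).trace - 0 - ((BranchCurve.pointCount S φ : ℤ) : ℂ_[p]) =
      zc p ((h σ⁻¹).trace - (BranchCurve.pointCount S φ : ℤ_[p])) := by
    rw [map_sub, map_intCast, sub_zero]
  rw [cRep_trace, h2, h3, h4, hc', map_mul, map_sub, map_natCast, map_one, norm_mul, zc_norm]
  exact mul_le_of_le_one_right (norm_nonneg _) (PadicInt.norm_le_one _)

/-- The reduction modulo `p`. -/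
noncomputable def redHom (h : (Qbar ≃ₐ[K] Qbar) →* Matrix (Fin g ⊕ Fin g) (Fin g ⊕ Fin g) ℤ_[p]) :
    (Qbar ≃ₐ[K] Qbar) →* Matrix (Fin g ⊕ Fin g) (Fin g ⊕ Fin g) (ZMod p) :=
  ((PadicInt.toZMod (p := p)).mapMatrix (m := Fin g ⊕ Fin g)).toMonoidHom.comp h

omit [NumberField K] in
theorem redHom_apply (h : (Qbar ≃ₐ[K] Qbar) →* Matrix (Fin g ⊕ Fin g) (Fin g ⊕ Fin g) ℤ_[p])
    (σ : Qbar ≃ₐ[K] Qbar) : redHom h σ = (h σ).map PadicInt.toZMod := rfl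

omit [NumberField K] in
theorem redHom_nhds {h : (Qbar ≃ₐ[K] Qbar) →* Matrix (Fin g ⊕ Fin g) (Fin g ⊕ Fin g) ℤ_[p]}
    (hc : Continuous h) (σ : Qbar ≃ₐ[K] Qbar) : {y | redHom h y = redHom h σ} ∈ 𝓝 σ := by
  have hopen : IsOpen {y : Qbar ≃ₐ[K] Qbar | ∀ i j, ‖h y i j - h σ i j‖ < 1} := by
    have h1 : {y : Qbar ≃ₐ[K] Qbar | ∀ i j, ‖h y i j - h σ i j‖ < 1} =
        ⋂ i, ⋂ j, {y : Qbar ≃ₐ[K] Qbar | ‖h y i j - h σ i j‖ < 1} := by
      ext y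
      simp
    rw [h1]
    refine isOpen_iInter_of_finite fun i => isOpen_iInter_of_finite fun j => ?_
    exact isOpen_lt (((hc.matrix_elem i j).sub continuous_const).norm) continuous_const
  refine Filter.mem_of_superset (hopen.mem_nhds (by
    intro i j
    rw [sub_self, norm_zero]
    exact one_pos)) fun y hy => ?_
  show redHom h y = redHom h σ
  rw [redHom_apply, redHom_apply]
  ext i j
  rw [Matrix.map_apply, Matrix.map_apply, ← sub_eq_zero, ← map_sub, ← RingHom.mem_ker,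
    PadicInt.ker_toZMod, IsLocalRing.mem_maximalIdeal, PadicInt.mem_nonunits]
  exact hy i j

/-- **Condition (J), first alternative.** -/
theorem jm_main (hζ : IsPrimitiveRoot ζ (p ^ a)) (ha : 0 < a)
    {h : (Qbar ≃ₐ[K] Qbar) →* Matrix (Fin g ⊕ Fin g) (Fin g ⊕ Fin g) ℤ_[p]} (hc : Continuous h)
    (ht : BranchCurve.AtFrobenius (fun F _ _ φ σ =>
      (Fintype.card F : ℤ_[p]) - 1 ∣ (h σ).trace - (BranchCurve.pointCount S φ : ℤ_[p])))
    (P : Subgroup (Equiv.Perm (Fin g))) (hP : ∀ i j, ∃ τ ∈ P, τ i = j)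
    (hw : ∀ τ ∈ P, ∀ M ∈ symplecticGroup (Fin g) (ZMod p), BranchCurve.PermutesPlanes τ M →
      ∃ σ, (h σ).map PadicInt.toZMod = M)
    {m : ℕ} [NeZero m] (hm3 : 2 < m) (hm : m.Prime ∨ m = 4) (hφ : m.totient = 2) {b c : ℕ}
    [Fact b.Prime] (hmb : m = b ^ c) (hbp : b ≠ p) {C : Matrix (Fin 2) (Fin 2) (ZMod p)}
    (hC : Rot m C) (ip : K →+* ℂ_[p]) {d : ℕ} (R : Rep K p d)
    (hR : SumRealization R ip (p ^ a) ζ (toS S)) {r : ℕ} [Fact r.Prime] (ir : K →+* ℂ_[r])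
    {d' : ℕ} (X : Rep K r d') (hX : SumRealization X ir (p ^ a) ζ (toS S))
    (g₀ : Qbar ≃ₐ[K] Qbar) (x₀ : ℂ_[r]) (hx₀ : (cycC r g₀ • X g₀).charpoly.IsRoot x₀)
    (hx₀' : ∀ n : ℕ, 0 < n → x₀ ^ n ≠ 1) {ℓ : ℕ} [Fact ℓ.Prime] (il : K →+* PadicAlgCl ℓ)
    {V : Type} [AddCommGroup V] [Module (PadicAlgCl ℓ) V] [Module.Finite (PadicAlgCl ℓ) V]
    (π : Representation (PadicAlgCl ℓ) (Qbar ≃ₐ[K] Qbar) V)
    (hπ : SumTraces (fun σ => LinearMap.trace (PadicAlgCl ℓ) V (π σ)) il (p ^ a) ζ (toS S)) :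
    Pool.Agent.RF.NoTateClasses π 1 := by
  classical
  let e : (Fin g ⊕ Fin g) ≃ Fin (g + g) := finSumFinEquiv
  have hN := cRep_card e hc ht
  have hrel : ∀ σ, residuallyOne (R σ) = residuallyOne (cRep e h σ) := by
    intro σ
    have h1 := fn_rel hζ ha hR.continuous hR.traces hN σ
    have h2 : residuallyOne ((1 : Rep K p 0) σ) = 0 := DP.pr_res_one p 0
    rw [h2] at h1
    exact h1
  let Φ : (Qbar ≃ₐ[K] Qbar) →* (Matrix (Fin g ⊕ Fin g) (Fin g ⊕ Fin g) (ZMod p))ˣ :=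
    (redHom h).toHomUnits
  let T : Multiplicative (Fin g → ZMod m) →* (Matrix (Fin g ⊕ Fin g) (Fin g ⊕ Fin g) (ZMod p))ˣ :=
    (torus g hC.pow).toHomUnits
  have hΦ : ∀ σ, ((Φ σ : (Matrix (Fin g ⊕ Fin g) (Fin g ⊕ Fin g) (ZMod p))ˣ) :
      Matrix (Fin g ⊕ Fin g) (Fin g ⊕ Fin g) (ZMod p)) = redHom h σ := fun σ => rfl
  have hT : ∀ t, ((T t : (Matrix (Fin g ⊕ Fin g) (Fin g ⊕ Fin g) (ZMod p))ˣ) :
      Matrix (Fin g ⊕ Fin g) (Fin g ⊕ Fin g) (ZMod p)) = torus g hC.pow t := fun t => rfl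
  have hfix : ∀ σ, Φ σ = 1 → residuallyOne (R σ) = g + g := by
    intro σ hσ
    rw [hrel]
    refine jc_one e (h σ) ?_
    have h1 := congrArg Units.val hσ
    exact h1
  have hdim : d = g + g := by
    have h1 := hfix 1 (map_one Φ)
    rw [map_one, DP.pr_res_one] at h1
    exact h1
  refine bm_main hζ ha (toS S) ip R hR ir X hX g₀ x₀ hx₀ hx₀' il π hπ Φ ?_ hm3 hm hmb hbp T ?_ ?_ ?_ ?_
    (fun σ hσ => by rw [hfix σ hσ, hdim]) ?_
  · intro σ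
    refine Filter.mem_of_superset (redHom_nhds hc σ) fun y hy => ?_
    exact Units.ext hy
  · intro s t hst
    apply torus_inj hC
    rw [← hT, ← hT, hst]
  · intro t
    obtain ⟨h1, h2⟩ := torus_mem hC (n := g) (Multiplicative.toAdd t)
    obtain ⟨σ, hσ⟩ := hw 1 P.one_mem _ h1 h2
    exact ⟨σ, Units.ext hσ⟩
  · intro δ₀ δ c
    obtain ⟨τ, hτP, hτ⟩ := hP δ₀ δ
    obtain ⟨M, hM, hM', hMt⟩ := torus_norm hC τ c
    obtain ⟨σ, hσ⟩ := hw τ hτP M hM hM'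
    refine ⟨τ, σ, hτ, fun t => ?_⟩
    rw [mul_inv_eq_iff_eq_mul]
    apply Units.ext
    rw [Units.val_mul, Units.val_mul, hT, hT, hΦ, redHom_apply, hσ]
    exact hMt t
  · rw [hφ, Fintype.card_fin, hdim]
    ring
  · intro σ t ht0 hσ
    rw [hrel]
    obtain ⟨B, hB⟩ := torus_free hC t ht0
    refine jc_zero e (h σ) B ?_
    have h1 : (h σ).map (PadicInt.toZMod (p := p)) = torus g hC.pow (Multiplicative.ofAdd t) := by
      rw [← redHom_apply, ← hΦ, hσ, hT]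
    rw [h1]
    exact hB

end jac

end Pool.Agent.BC
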