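import Pool.Agent.Lib_helper13.BC.Blk
import Pool.Agent.Lib_helper46.UI.FN

/-!
# Representations over `ℤ_[p]` and the number of the eigenvalues that are congruent to `1`
-/

set_option autoImplicit false

namespace Pool.Agent.BC

open Matrix Pool.Agent.TT Pool.Agent.UI Topology

section padic

variable {p : ℕ} [hp : Fact p.Prime] {ι : Type} [Fintype ι] [DecidableEq ι]

/-- The embedding of `ℤ_[p]`. -/
noncomputable def zc (p : ℕ) [Fact p.Prime] : ℤ_[p] →+* ℂ_[p] :=
  (algebraMap ℚ_[p] ℂ_[p]).comp (algebraMap ℤ_[p] ℚ_[p])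

theorem zc_norm (x : ℤ_[p]) : ‖zc p x‖ = ‖x‖ := by
  rw [PadicInt.norm_def]
  exact PadicComplex.norm_extends' p _

theorem zc_cont : Continuous (zc p) := by
  have h : Isometry (zc p) := by
    refine AddMonoidHomClass.isometry_of_norm _ fun x => ?_
    exact zc_norm x
  exact h.continuous

omit [DecidableEq ι] in
/-- A matrix with small entries has no nonzero fixed vector. -/
theorem jc_small (E : Matrix ι ι ℂ_[p]) (hE : ∀ i j, ‖E i j‖ < 1) {v : ι → ℂ_[p]}
    (hv : E.mulVec v = v) : v = 0 := by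
  classical
  by_contra hv0
  have hne : Nonempty ι := by
    by_contra hempty
    rw [not_nonempty_iff] at hempty
    exact hv0 (Subsingleton.elim _ _)
  obtain ⟨i, hi⟩ := Finite.exists_max fun i => ‖v i‖
  have hvi : 0 < ‖v i‖ := by
    rw [norm_pos_iff]
    intro h0
    apply hv0
    funext j
    have := hi j
    rw [h0, norm_zero] at this
    exact norm_le_zero_iff.mp this
  have h1 : ‖∑ j, E i j * v j‖ < ‖v i‖ := by
    apply Pool.Agent.TT.gn_sum_lt _ _ hvi
    intro j _
    rw [norm_mul]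
    calc ‖E i j‖ * ‖v j‖ ≤ ‖E i j‖ * ‖v i‖ := by
          gcongr
          exact hi j
      _ < 1 * ‖v i‖ := by
          gcongr
          exact hE i j
      _ = _ := one_mul _
  have h2 : ∑ j, E i j * v j = v i := congrFun hv i
  rw [h2] at h1
  exact lt_irrefl _ h1

/-- The complex matrix. -/
noncomputable def cm {d : ℕ} (e : ι ≃ Fin d) (M : Matrix ι ι ℤ_[p]) :
    Matrix (Fin d) (Fin d) ℂ_[p] :=
  (M.map (zc p)).reindex e e

theorem cm_eig {d : ℕ} (e : ι ≃ Fin d) (M : Matrix ι ι ℤ_[p]) {x : ℂ_[p]}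
    (hx : x ∈ (cm e M).charpoly.roots) :
    ∃ v : ι → ℂ_[p], v ≠ 0 ∧ (M.map (zc p)).mulVec v = x • v := by
  have h1 : (cm e M).charpoly = (M.map (zc p)).charpoly := Matrix.charpoly_reindex e _
  rw [h1, Polynomial.mem_roots (Matrix.charpoly_monic _).ne_zero, ← Matrix.charpoly_toLin',
    ← Module.End.hasEigenvalue_iff_isRoot_charpoly] at hx
  obtain ⟨v, hv⟩ := hx.exists_hasEigenvector
  refine ⟨v, hv.2, ?_⟩
  have h2 := hv.apply_eq_smul
  rwa [Matrix.toLin'_apply] at h2

theorem cm_card {d : ℕ} (A : Matrix (Fin d) (Fin d) ℂ_[p]) :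
    Multiset.card A.charpoly.roots = d := by
  rw [IsAlgClosed.card_roots_eq_natDegree, Matrix.charpoly_natDegree_eq_dim, Fintype.card_fin]

/-- A matrix that is congruent to `1`. -/
theorem jc_one {d : ℕ} (e : ι ≃ Fin d) (M : Matrix ι ι ℤ_[p])
    (hM : M.map (PadicInt.toZMod (p := p)) = 1) : residuallyOne (cm e M) = d := by
  classical
  unfold residuallyOne
  rw [Multiset.filter_eq_self.2, cm_card]
  intro x hx
  obtain ⟨v, hv0, hv⟩ := cm_eig e M hx
  by_contra hcon
  push Not at hcon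
  have hx1 : x - 1 ≠ 0 := by
    intro h
    rw [h, norm_zero] at hcon
    exact absurd hcon (not_le.2 one_pos)
  have hent : ∀ i j, ‖(M.map (zc p) - 1) i j‖ < 1 := by
    intro i j
    have h1 : (M.map (zc p) - 1) i j = zc p ((M - 1) i j) := by
      rw [Matrix.sub_apply, Matrix.sub_apply, Matrix.map_apply, map_sub, Matrix.one_apply,
        Matrix.one_apply]
      split_ifs <;> simp
    rw [h1, zc_norm, ← PadicInt.mem_nonunits, ← IsLocalRing.mem_maximalIdeal,
      ← PadicInt.ker_toZMod, RingHom.mem_ker, Matrix.sub_apply, map_sub]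
    have h2 : PadicInt.toZMod (M i j) = (1 : Matrix ι ι (ZMod p)) i j := by
      rw [← hM]
      rfl
    rw [h2, Matrix.one_apply, Matrix.one_apply]
    split_ifs <;> simp
  apply hv0
  refine jc_small ((x - 1)⁻¹ • (M.map (zc p) - 1)) ?_ ?_
  · intro i j
    rw [Matrix.smul_apply, smul_eq_mul, norm_mul, norm_inv]
    calc ‖x - 1‖⁻¹ * ‖(M.map (zc p) - 1) i j‖ ≤ 1 * ‖(M.map (zc p) - 1) i j‖ := by
          gcongr
          exact inv_le_one_of_one_le₀ hcon
      _ < 1 := by
          rw [one_mul]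
          exact hent i j
  · rw [Matrix.smul_mulVec, Matrix.sub_mulVec, hv, Matrix.one_mulVec]
    have h3 : x • v - v = (x - 1) • v := by rw [sub_smul, one_smul]
    rw [h3, smul_smul, inv_mul_cancel₀ hx1, one_smul]

/-- A matrix without eigenvalue `1` modulo `p`. -/
theorem jc_zero {d : ℕ} (e : ι ≃ Fin d) (M : Matrix ι ι ℤ_[p]) (B : Matrix ι ι (ZMod p))
    (hB : B * (M.map (PadicInt.toZMod (p := p)) - 1) = 1) : residuallyOne (cm e M) = 0 := by
  classical
  unfold residuallyOne
  rw [Multiset.card_eq_zero, Multiset.filter_eq_nil]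
  intro x hx hcon
  obtain ⟨v, hv0, hv⟩ := cm_eig e M hx
  -- a lift of `B`
  have hlift : ∀ i j, ∃ b : ℤ_[p], PadicInt.toZMod b = B i j := fun i j =>
    ZMod.ringHom_surjective PadicInt.toZMod (B i j)
  choose L hL using hlift
  let B' : Matrix ι ι ℤ_[p] := Matrix.of L
  have hB' : B'.map (PadicInt.toZMod (p := p)) = B := by
    ext i j
    exact hL i j
  let E : Matrix ι ι ℤ_[p] := 1 - B' * (M - 1)
  have hE : E.map (PadicInt.toZMod (p := p)) = 0 := by
    have h1 : E.map (PadicInt.toZMod (p := p)) = (PadicInt.toZMod (p := p)).mapMatrix E := rfl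
    rw [h1, map_sub, map_one, map_mul, map_sub, map_one]
    have h2 : (PadicInt.toZMod (p := p)).mapMatrix B' = B := hB'
    have h3 : (PadicInt.toZMod (p := p)).mapMatrix M = M.map (PadicInt.toZMod (p := p)) := rfl
    rw [h2, h3, hB, sub_self]
  have hEn : ∀ i j, ‖zc p (E i j)‖ < 1 := by
    intro i j
    rw [zc_norm, ← PadicInt.mem_nonunits, ← IsLocalRing.mem_maximalIdeal, ← PadicInt.ker_toZMod,
      RingHom.mem_ker]
    have h2 := congrFun (congrFun hE i) j
    exact h2
  apply hv0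
  refine jc_small ((x - 1) • B'.map (zc p) + E.map (zc p)) ?_ ?_
  · intro i j
    rw [Matrix.add_apply, Matrix.smul_apply, smul_eq_mul]
    refine lt_of_le_of_lt (IsUltrametricDist.norm_add_le_max _ _) (max_lt ?_ (hEn i j))
    rw [norm_mul, Matrix.map_apply, zc_norm]
    calc ‖x - 1‖ * ‖B' i j‖ ≤ ‖x - 1‖ * 1 := by
          gcongr
          exact PadicInt.norm_le_one _
      _ < 1 := by rw [mul_one]; exact hcon
  · have h1 : E.map (zc p) = 1 - B'.map (zc p) * (M.map (zc p) - 1) := by
      have h2 : E.map (zc p) = (zc p).mapMatrix E := rfl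
      rw [h2, map_sub, map_one, map_mul, map_sub, map_one]
      rfl
    rw [h1, Matrix.add_mulVec, Matrix.smul_mulVec, Matrix.sub_mulVec, Matrix.one_mulVec,
      ← Matrix.mulVec_mulVec, Matrix.sub_mulVec, hv, Matrix.one_mulVec]
    have h3 : x • v - v = (x - 1) • v := by rw [sub_smul, one_smul]
    rw [h3, Matrix.mulVec_smul]
    abel

end padic

end Pool.Agent.BC
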