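import Pool.Agent.Lib_helper13.BC.Tail

/-!
# Condition (J), second alternative
-/

set_option autoImplicit false

namespace Pool.Agent.BC

open NumberField Polynomial Topology Pool.Agent.TT Pool.Agent.TB Pool.Agent.TF Pool.Agent.UI
open Pool.Agent.RF
open Matrix (symplecticGroup)

section oq

variable {K : Type} [Field K] [NumberField K] [Algebra K Qbar] {a : ℕ} {ζ : 𝓞 K}
  {s : ℕ} {S : Fin s → BranchCurve.Term K} {g : ℕ}

/-- The algebraic closure of the field with two elements. -/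
abbrev F2bar : Type := AlgebraicClosure (ZMod 2)

/-- The representation over the algebraic closure of the field with two elements. -/
noncomputable def rRep {d : ℕ} (e : (Fin g ⊕ Fin g) ≃ Fin d)
    (h : (Qbar ≃ₐ[K] Qbar) →* Matrix (Fin g ⊕ Fin g) (Fin g ⊕ Fin g) ℤ_[2]) :
    (Qbar ≃ₐ[K] Qbar) →* Matrix (Fin d) (Fin d) F2bar where
  toFun σ := ((redHom h σ).map (algebraMap (ZMod 2) F2bar)).reindex e e
  map_one' := by
    rw [map_one]
    have h1 : (1 : Matrix (Fin g ⊕ Fin g) (Fin g ⊕ Fin g) (ZMod 2)).map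
        (algebraMap (ZMod 2) F2bar) = 1 := map_one (algebraMap (ZMod 2) F2bar).mapMatrix
    rw [h1]
    exact map_one (Matrix.reindexAlgEquiv F2bar F2bar e)
  map_mul' σ τ := by
    rw [map_mul]
    have h1 : (redHom h σ * redHom h τ).map (algebraMap (ZMod 2) F2bar) =
        (redHom h σ).map (algebraMap (ZMod 2) F2bar) * (redHom h τ).map (algebraMap (ZMod 2) F2bar) :=
      map_mul (algebraMap (ZMod 2) F2bar).mapMatrix _ _
    rw [h1]
    exact map_mul (Matrix.reindexAlgEquiv F2bar F2bar e) _ _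

omit [NumberField K] in
theorem rRep_trace {d : ℕ} (e : (Fin g ⊕ Fin g) ≃ Fin d)
    (h : (Qbar ≃ₐ[K] Qbar) →* Matrix (Fin g ⊕ Fin g) (Fin g ⊕ Fin g) ℤ_[2]) (σ : Qbar ≃ₐ[K] Qbar) :
    (rRep e h σ).trace = algebraMap (ZMod 2) F2bar (PadicInt.toZMod (h σ).trace) := by
  have h1 : (rRep e h σ).trace =
      ∑ i, algebraMap (ZMod 2) F2bar (PadicInt.toZMod (h σ (e.symm i) (e.symm i))) := rfl
  rw [h1, Matrix.trace, map_sum, map_sum]
  exact Equiv.sum_comp e.symm fun j => algebraMap (ZMod 2) F2bar (PadicInt.toZMod (h σ j j))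

omit [NumberField K] in
theorem rRep_open {d : ℕ} (e : (Fin g ⊕ Fin g) ≃ Fin d)
    {h : (Qbar ≃ₐ[K] Qbar) →* Matrix (Fin g ⊕ Fin g) (Fin g ⊕ Fin g) ℤ_[2]} (hc : Continuous h) :
    IsOpen ((rRep e h).ker : Set (Qbar ≃ₐ[K] Qbar)) := by
  refine Subgroup.isOpen_of_mem_nhds _ (g := 1) (Filter.mem_of_superset (redHom_nhds hc 1) ?_)
  intro y hy
  have h1 : redHom h y = 1 := by
    have h2 : redHom h y = redHom h 1 := hy
    rw [h2, map_one]
  show rRep e h y = 1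
  have h2 : rRep e h y = ((redHom h y).map (algebraMap (ZMod 2) F2bar)).reindex e e := rfl
  have h3 : rRep e h 1 = ((redHom h 1).map (algebraMap (ZMod 2) F2bar)).reindex e e := rfl
  rw [h2, h1, ← map_one (redHom h), ← h3, map_one]

omit [NumberField K] in
theorem rRep_contains {d : ℕ} (e : (Fin g ⊕ Fin g) ≃ Fin d)
    (h : (Qbar ≃ₐ[K] Qbar) →* Matrix (Fin g ⊕ Fin g) (Fin g ⊕ Fin g) ℤ_[2]) (hg : 3 ≤ g)
    (q : (Fin g ⊕ Fin g → ZMod 2) → ZMod 2)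
    (hq : ∀ x y, q (x + y) = q x + q y + x ⬝ᵥ Matrix.mulVec (Matrix.J (Fin g) (ZMod 2)) y)
    (hO : ∀ M : Matrix (Fin g ⊕ Fin g) (Fin g ⊕ Fin g) (ZMod 2), (∀ x, q (M.mulVec x) = q x) →
      ∃ σ, (h σ).map PadicInt.toZMod = M) : ContainsO (rRep e h) := by
  classical
  refine ⟨inferInstance, g, q, (1 : Matrix (Fin g ⊕ Fin g) (Fin g ⊕ Fin g) F2bar).submatrix e.symm id,
    (1 : Matrix (Fin g ⊕ Fin g) (Fin g ⊕ Fin g) F2bar).submatrix id e.symm, hg, hq, ?_, ?_, ?_⟩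
  · ext i j
    rw [Matrix.mul_apply]
    simp [Matrix.submatrix_apply, Matrix.one_apply]
  · ext i j
    rw [Matrix.mul_apply]
    have h1 : ∀ x : Fin d, (1 : Matrix (Fin g ⊕ Fin g) (Fin g ⊕ Fin g) F2bar).submatrix id e.symm i x *
        (1 : Matrix (Fin g ⊕ Fin g) (Fin g ⊕ Fin g) F2bar).submatrix e.symm id x j =
        (1 : Matrix (Fin g ⊕ Fin g) (Fin g ⊕ Fin g) F2bar) i (e.symm x) *
          (1 : Matrix (Fin g ⊕ Fin g) (Fin g ⊕ Fin g) F2bar) (e.symm x) j := fun x => rfl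
    rw [Finset.sum_congr rfl fun x _ => h1 x, Equiv.sum_comp e.symm fun y =>
      (1 : Matrix (Fin g ⊕ Fin g) (Fin g ⊕ Fin g) F2bar) i y *
        (1 : Matrix (Fin g ⊕ Fin g) (Fin g ⊕ Fin g) F2bar) y j, ← Matrix.mul_apply, Matrix.one_mul]
  · intro A hA
    obtain ⟨σ, hσ⟩ := hO A hA
    refine ⟨σ, ?_⟩
    have h1 : rRep e h σ = ((redHom h σ).map (algebraMap (ZMod 2) F2bar)).reindex e e := rfl
    rw [h1, redHom_apply, hσ]
    ext i j
    rw [Matrix.mul_apply]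
    have h2 : ∀ x, ((1 : Matrix (Fin g ⊕ Fin g) (Fin g ⊕ Fin g) F2bar).submatrix e.symm id *
        A.map (algebraMap (ZMod 2) F2bar)) i x = A.map (algebraMap (ZMod 2) F2bar) (e.symm i) x := by
      intro x
      rw [Matrix.mul_apply]
      simp [Matrix.submatrix_apply, Matrix.one_apply]
    rw [Finset.sum_congr rfl fun x _ => by rw [h2 x]]
    simp [Matrix.submatrix_apply, Matrix.one_apply]

/-- **Condition (J), second alternative.** -/
theorem oq_main (hζ : IsPrimitiveRoot ζ (2 ^ a)) (ha : 0 < a)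
    {h : (Qbar ≃ₐ[K] Qbar) →* Matrix (Fin g ⊕ Fin g) (Fin g ⊕ Fin g) ℤ_[2]} (hc : Continuous h)
    (ht : BranchCurve.AtFrobenius (fun F _ _ φ σ =>
      (Fintype.card F : ℤ_[2]) - 1 ∣ (h σ).trace - (BranchCurve.pointCount S φ : ℤ_[2])))
    (hg : 3 ≤ g) (q : (Fin g ⊕ Fin g → ZMod 2) → ZMod 2)
    (hq : ∀ x y, q (x + y) = q x + q y + x ⬝ᵥ Matrix.mulVec (Matrix.J (Fin g) (ZMod 2)) y)
    (hO : ∀ M : Matrix (Fin g ⊕ Fin g) (Fin g ⊕ Fin g) (ZMod 2), (∀ x, q (M.mulVec x) = q x) →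
      ∃ σ, (h σ).map PadicInt.toZMod = M)
    (ip : K →+* PadicAlgCl 2) {d : ℕ}
    (ρ : (Qbar ≃ₐ[K] Qbar) →* Matrix (Fin d) (Fin d) (PadicAlgCl 2))
    (hρ : SumTraces (fun σ => (ρ σ).trace) ip (2 ^ a) ζ (toS S))
    (hR : SumRealization (DP.extRep ρ) ((algebraMap (PadicAlgCl 2) ℂ_[2]).comp ip) (2 ^ a) ζ (toS S))
    {r : ℕ} [Fact r.Prime] (ir : K →+* ℂ_[r])
    {d' : ℕ} (X : Rep K r d') (hX : SumRealization X ir (2 ^ a) ζ (toS S))
    (g₀ : Qbar ≃ₐ[K] Qbar) (x₀ : ℂ_[r]) (hx₀ : (cycC r g₀ • X g₀).charpoly.IsRoot x₀)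
    (hx₀' : ∀ n : ℕ, 0 < n → x₀ ^ n ≠ 1) {ℓ : ℕ} [Fact ℓ.Prime] (il : K →+* PadicAlgCl ℓ)
    {V : Type} [AddCommGroup V] [Module (PadicAlgCl ℓ) V] [Module.Finite (PadicAlgCl ℓ) V]
    (π : Representation (PadicAlgCl ℓ) (Qbar ≃ₐ[K] Qbar) V)
    (hπ : SumTraces (fun σ => LinearMap.trace (PadicAlgCl ℓ) V (π σ)) il (2 ^ a) ζ (toS S)) :
    Pool.Agent.RF.NoTateClasses π 1 := by
  classical
  let e₀ : (Fin g ⊕ Fin g) ≃ Fin (g + g) := finSumFinEquiv
  have hdim : g + g = d := by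
    have h1 := fn_rel hζ ha hR.continuous hR.traces (cRep_card e₀ hc ht) 1
    have h2 : residuallyOne ((1 : Rep K 2 0) 1) = 0 := DP.pr_res_one 2 0
    have h3 : residuallyOne (cRep e₀ h 1) = g + g := by rw [map_one, DP.pr_res_one]
    rw [h2, h3, map_one, DP.pr_res_one] at h1
    omega
  let e : (Fin g ⊕ Fin g) ≃ Fin d := e₀.trans (finCongr hdim)
  intro H hH W₁ W₂ hW hTate
  refine final hζ (toS S) _ (DP.extRep ρ) hR.continuous hR.traces (rRep e h) (rRep_open e hc) ?_ (j := 1)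
    (Or.inl ⟨Or.inr (rRep_contains e h hg q hq hO), Or.inr
      (tail_inf (toS S) ir X hX g₀ x₀ hx₀ hx₀' ip ρ hρ)⟩) il π hπ H hH W₁ W₂ hW hTate
  obtain ⟨B, hB⟩ := ht
  refine ⟨insert 2 B, fun q hq hqB 𝔓 h𝔓 hq𝔓 F _ _ φ hφ σ hσ => ?_⟩
  have hq2 : q ≠ 2 := fun h => hqB (h ▸ Finset.mem_insert_self 2 B)
  have hqB' : q ∉ B := fun h => hqB (Finset.mem_insert_of_mem h)
  obtain ⟨c, hc'⟩ := hB q hq hqB' 𝔓 h𝔓 hq𝔓 F φ hφ σ hσ
  have hqF : (q : F) = 0 := by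
    have h2 : φ (q : 𝓞 K) = 0 := by
      rw [hφ, map_natCast]
      exact hq𝔓
    rwa [map_natCast] at h2
  have hch : ringChar F = q := by
    have h3 : ringChar F ∣ q := (ringChar.spec F q).1 hqF
    rcases (Nat.dvd_prime hq).1 h3 with h4 | h4
    · exact absurd h4 (CharP.ringChar_ne_one)
    · exact h4
  have h5 : ringChar F ≠ 2 := by rw [hch]; exact hq2
  have hodd : Fintype.card F % 2 = 1 := FiniteField.odd_card_of_char_ne_two h5
  have h6 : ((Fintype.card F : ℕ) : ZMod 2) = 1 := by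
    rw [← Nat.cast_one, ZMod.natCast_eq_natCast_iff']
    exact hodd
  have h7 : PadicInt.toZMod ((h σ⁻¹).trace - (BranchCurve.pointCount S φ : ℤ_[2])) = 0 := by
    rw [hc', map_mul, map_sub, map_natCast, h6, map_one, sub_self, zero_mul]
  rw [map_sub, map_intCast, sub_eq_zero] at h7
  beta_reduce
  rw [rRep_trace, h7, map_intCast]
  rfl

end oq

end Pool.Agent.BC
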