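import Mathlib

/-!
# The lifts of a commutative `r`-group along a homomorphism of finite groups
-/

set_option autoImplicit false

namespace Pool.Agent.BC

/-- **The lifts of a commutative `r`-group** along a homomorphism whose kernel consists of elements
of `q`-power order, and the argument of Frattini. -/
theorem sec_main {𝒢 A Γ : Type} [Group 𝒢] [CommGroup A] [Finite A] [Group Γ] [Finite Γ] {r q : ℕ}
    [hr : Fact r.Prime] [hq : Fact q.Prime] (hrq : r ≠ q) {k : ℕ} (hA : Nat.card A = r ^ k)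
    (T : A →* 𝒢) (hTinj : Function.Injective T) (φ : Γ →* 𝒢)
    (hK : ∀ g, φ g = 1 → ∃ s : ℕ, g ^ q ^ s = 1) (hT : ∀ a : A, ∃ g, φ g = T a) :
    ∃ p : A →* Γ, (∀ a, φ (p a) = T a) ∧
      ∀ (lam : Γ) (α : A → A), (∀ a, φ lam * T a * (φ lam)⁻¹ = T (α a)) →
        ∃ ν : Γ, ∀ a : A, ν * p a * ν⁻¹ = p (α a) := by
  classical
  let TT : Subgroup 𝒢 := T.range
  have hTTmem : ∀ t, t ∈ TT ↔ ∃ a : A, T a = t := fun t => Iff.rfl
  have hTcomm : ∀ s ∈ TT, ∀ t ∈ TT, s * t = t * s := by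
    rintro _ ⟨a, rfl⟩ _ ⟨b, rfl⟩
    rw [← map_mul, ← map_mul, mul_comm]
  let Γ' : Subgroup Γ := (Subgroup.normalizer (TT : Set 𝒢)).comap φ
  let φ' : Γ' →* 𝒢 := φ.comp Γ'.subtype
  have hφ' : ∀ g : Γ', φ' g = φ g.1 := fun g => rfl
  have hnorm : ∀ (g : Γ') (t), t ∈ TT ↔ φ' g * t * (φ' g)⁻¹ ∈ TT :=
    fun g => Subgroup.mem_normalizer_iff.1 g.2
  let N : Subgroup Γ' := TT.comap φ'
  have hN : N.Normal := ⟨fun n hn g => by
    change φ' (g * n * g⁻¹) ∈ TT
    rw [map_mul, map_mul, map_inv]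
    exact (hnorm g _).1 hn⟩
  obtain ⟨P⟩ : Nonempty (Sylow r N) := inferInstance
  let Q : Subgroup Γ' := P.1.map N.subtype
  have hQN : Q ≤ N := Subgroup.map_subtype_le _
  -- `φ'` is injective on `Q`
  have hinj : ∀ x ∈ Q, φ' x = 1 → x = 1 := by
    rintro _ ⟨x, hx, rfl⟩ h1
    obtain ⟨s, hs⟩ := hK x.1.1 h1
    obtain ⟨n, hn⟩ := P.isPGroup' ⟨x, hx⟩
    have h2 : x.1.1 ^ r ^ n = 1 := by
      have h3 := congrArg (fun y : P.1 => ((y.1 : N) : Γ').1) hn
      simpa using h3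
    have h3 : orderOf x.1.1 ∣ Nat.gcd (q ^ s) (r ^ n) :=
      Nat.dvd_gcd (orderOf_dvd_of_pow_eq_one hs) (orderOf_dvd_of_pow_eq_one h2)
    have h4 : Nat.gcd (q ^ s) (r ^ n) = 1 := by
      apply Nat.Coprime.pow
      rw [Nat.coprime_primes hq.out hr.out]
      exact hrq.symm
    rw [h4, Nat.dvd_one, orderOf_eq_one_iff] at h3
    exact Subtype.ext h3
  -- the cardinality
  let ψ : N →* TT := (φ'.comp N.subtype).codRestrict TT fun x => x.2
  have hψ : ∀ x : N, ((ψ x : TT) : 𝒢) = φ' x.1 := fun x => rfl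
  have hψsurj : Function.Surjective ψ := by
    rintro ⟨t, ht⟩
    obtain ⟨a, ha⟩ := (hTTmem t).1 ht
    obtain ⟨g, hg⟩ := hT a
    have hgΓ : g ∈ Γ' := by
      change φ g ∈ Subgroup.normalizer (TT : Set 𝒢)
      apply Subgroup.le_normalizer
      rw [hg, hTTmem]
      exact ⟨a, rfl⟩
    refine ⟨⟨⟨g, hgΓ⟩, ?_⟩, ?_⟩
    · change φ g ∈ TT
      rw [hg, hTTmem]
      exact ⟨a, rfl⟩
    · apply Subtype.ext
      rw [hψ]
      change φ g = t
      rw [hg, ha]
  have hcardT : Nat.card TT = r ^ k := by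
    rw [← hA]
    exact (Nat.card_congr (MonoidHom.ofInjective hTinj).toEquiv).symm
  have hTTfin : Finite TT := Nat.finite_of_card_ne_zero (by
    rw [hcardT]
    exact pow_ne_zero _ hr.out.ne_zero)
  have hker : ∃ s, Nat.card ψ.ker = q ^ s := by
    rw [← IsPGroup.iff_card]
    rintro ⟨x, hx⟩
    have h1 : φ' x.1 = 1 := by
      rw [← hψ, (MonoidHom.mem_ker).1 hx]
      rfl
    obtain ⟨s, hs⟩ := hK x.1.1 h1
    refine ⟨s, ?_⟩
    apply Subtype.ext
    apply Subtype.ext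
    apply Subtype.ext
    exact hs
  obtain ⟨s, hs⟩ := hker
  have hcardN : Nat.card N = q ^ s * r ^ k := by
    rw [← Subgroup.card_mul_index ψ.ker, Subgroup.index_ker, hs,
      MonoidHom.range_eq_top.2 hψsurj, Subgroup.card_top, hcardT]
  have hcardP : Nat.card P.1 = r ^ k := by
    have h1 : Nat.card P.1 = r ^ (Nat.card N).factorization r := P.card_eq_multiplicity
    rw [h1, hcardN, Nat.factorization_mul (pow_ne_zero _ hq.out.ne_zero)
      (pow_ne_zero _ hr.out.ne_zero), Finsupp.add_apply, Nat.factorization_pow, Nat.factorization_pow,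
      Finsupp.smul_apply, Finsupp.smul_apply, hr.out.factorization_self, hq.out.factorization]
    rw [Finsupp.single_apply, if_neg hrq.symm]
    simp
  -- `Q` maps onto `TT`
  let θ : P.1 → TT := fun x => ψ x.1
  have hθinj : Function.Injective θ := by
    intro x y hxy
    have h1 : ψ (x.1 * y.1⁻¹) = 1 := by
      rw [map_mul, map_inv]
      have h2 : ψ x.1 = ψ y.1 := hxy
      rw [h2, mul_inv_cancel]
    have h2 := hinj (x.1 * y.1⁻¹ : N) ⟨x.1 * y.1⁻¹, P.1.mul_mem x.2 (P.1.inv_mem y.2), rfl⟩ (by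
      rw [← hψ, h1]
      rfl)
    have h3 : x.1 * y.1⁻¹ = 1 := Subtype.ext h2
    exact Subtype.ext (mul_inv_eq_one.1 h3)
  have hθ : Function.Bijective θ := by
    have : Finite P.1 := inferInstance
    exact (Nat.bijective_iff_injective_and_card θ).2 ⟨hθinj, by rw [hcardP, hcardT]⟩
  have hsec : ∀ a : A, ∃ x : Γ', x ∈ Q ∧ φ' x = T a := by
    intro a
    obtain ⟨x, hx⟩ := hθ.2 ⟨T a, (hTTmem _).2 ⟨a, rfl⟩⟩
    refine ⟨x.1.1, ⟨x.1, x.2, rfl⟩, ?_⟩
    rw [← hψ]
    exact congrArg Subtype.val hx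
  choose sec hsecQ hsecφ using hsec
  have huniq : ∀ x ∈ Q, ∀ y ∈ Q, φ' x = φ' y → x = y := by
    intro x hx y hy hxy
    have h1 := hinj (x * y⁻¹) (Q.mul_mem hx (Q.inv_mem hy)) (by
      rw [map_mul, map_inv, hxy, mul_inv_cancel])
    exact mul_inv_eq_one.1 h1
  let p : A →* Γ :=
    { toFun := fun a => (sec a).1
      map_one' := by
        have h1 : sec (1 : A) = 1 := by
          refine huniq _ (hsecQ _) _ Q.one_mem ?_
          rw [hsecφ, map_one, map_one]
        exact congrArg Subtype.val h1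
      map_mul' := by
        intro a b
        have h1 : sec (a * b) = sec a * sec b := by
          refine huniq _ (hsecQ _) _ (Q.mul_mem (hsecQ _) (hsecQ _)) ?_
          rw [hsecφ, map_mul, map_mul, hsecφ, hsecφ]
        exact congrArg Subtype.val h1 }
  refine ⟨p, fun a => hsecφ _, ?_⟩
  intro lam α hlam
  have hαinj : Function.Injective α := by
    intro a b hab
    apply hTinj
    have h1 : φ lam * T a * (φ lam)⁻¹ = φ lam * T b * (φ lam)⁻¹ := by rw [hlam, hlam, hab]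
    exact mul_left_cancel (mul_right_cancel h1)
  have hαsurj : Function.Surjective α := Finite.injective_iff_surjective.1 hαinj
  have hlamΓ : lam ∈ Γ' := by
    change φ lam ∈ Subgroup.normalizer (TT : Set 𝒢)
    rw [Subgroup.mem_normalizer_iff]
    intro t
    constructor
    · intro ht
      obtain ⟨a, rfl⟩ := (hTTmem t).1 ht
      rw [hlam, hTTmem]
      exact ⟨_, rfl⟩
    · intro ht
      obtain ⟨b, hb⟩ := (hTTmem _).1 ht
      obtain ⟨a, rfl⟩ := hαsurj b
      rw [hTTmem]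
      refine ⟨a, ?_⟩
      rw [← hlam] at hb
      exact mul_left_cancel (mul_right_cancel hb)
  -- Frattini
  have hfr := Sylow.normalizer_sup_eq_top P
  have h1 : (⟨lam, hlamΓ⟩ : Γ') ∈ Subgroup.normalizer (Q : Set Γ') ⊔ N := by
    rw [show Q = P.1.map N.subtype from rfl, hfr]
    exact Subgroup.mem_top _
  obtain ⟨ν, hν, y, hy, hνy⟩ := Subgroup.mem_sup_of_normal_right.1 h1
  refine ⟨ν.1, fun a => ?_⟩
  have h2 : ν * sec a * ν⁻¹ = sec (α a) := by
    refine huniq _ ((Subgroup.mem_normalizer_iff.1 hν _).1 (hsecQ a)) _ (hsecQ _) ?_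
    have h3 : φ' ν = φ lam * (φ' y)⁻¹ := by
      rw [eq_mul_inv_iff_mul_eq, ← map_mul, hνy]
      rfl
    have h4 : (φ' y)⁻¹ * T a * φ' y = T a := by
      have h5 := hTcomm (φ' y) hy (T a) ((hTTmem _).2 ⟨a, rfl⟩)
      rw [mul_assoc, ← h5, ← mul_assoc, inv_mul_cancel, one_mul]
    rw [map_mul, map_mul, map_inv, hsecφ, hsecφ, h3, mul_inv_rev, inv_inv, ← hlam]
    calc φ lam * (φ' y)⁻¹ * T a * (φ' y * (φ lam)⁻¹)
        = φ lam * ((φ' y)⁻¹ * T a * φ' y) * (φ lam)⁻¹ := by simp only [mul_assoc]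
      _ = _ := by rw [h4]
  exact congrArg Subtype.val h2

end Pool.Agent.BC
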