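import Pool.Agent.Lib_helper13.BC.JMain
import Pool.Agent.Lib_helper28.TE28.End
import Pool.Agent.Lib_helper46.DP.Main

/-!
# A representation with finite image has only roots of unity as eigenvalues
-/

set_option autoImplicit false

namespace Pool.Agent.BC

open NumberField Polynomial Topology Pool.Agent.TT Pool.Agent.TB Pool.Agent.TF Pool.Agent.UI
open Pool.Agent.TU Pool.Agent.RF Pool.Agent.UB

section tail

variable {K : Type} [Field K] [NumberField K] [Algebra K Qbar] {n : ℕ} {ζ : 𝓞 K}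

/-- A representation of finite exponent and an eigenvalue that is not a root of unity. -/
theorem tail_main {s : ℕ} (S : Fin s → Stratum K) {r : ℕ} [Fact r.Prime] (ir : K →+* ℂ_[r])
    {d' : ℕ} (X : Rep K r d') (hX : SumRealization X ir n ζ S)
    (g₀ : Qbar ≃ₐ[K] Qbar) (x₀ : ℂ_[r]) (hx₀ : (cycC r g₀ • X g₀).charpoly.IsRoot x₀)
    (hx₀' : ∀ n : ℕ, 0 < n → x₀ ^ n ≠ 1) {ℓ : ℕ} [Fact ℓ.Prime] (il : K →+* PadicAlgCl ℓ)
    {V : Type} [AddCommGroup V] [Module (PadicAlgCl ℓ) V] [Module.Finite (PadicAlgCl ℓ) V]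
    (π : Representation (PadicAlgCl ℓ) (Qbar ≃ₐ[K] Qbar) V)
    (hπ : SumTraces (fun σ => LinearMap.trace (PadicAlgCl ℓ) V (π σ)) il n ζ S) {e : ℕ}
    (he0 : 0 < e)
    (htriv : ∀ t, Pool.Agent.UB.twist π 1 tv_cyc_mul tv_cyc_one (t ^ e) = 1) : False := by
  classical
  set π' := Pool.Agent.UB.twist π 1 tv_cyc_mul tv_cyc_one with hπ'
  have hcont : ∀ {q : ℕ} [Fact q.Prime] {n : ℕ}
      (X : (Qbar ≃ₐ[K] Qbar) →* Matrix (Fin n) (Fin n) ℂ_[q]), Continuous X →
        Continuous (Pool.Agent.TBL.twist X 1) := by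
    intro q _ n X hX
    change Continuous (fun g => cycC q g ^ 1 • X g)
    exact ((cycC_continuous (p := q) (K := K)).pow 1).smul hX
  set X' := Pool.Agent.TBL.twist X 1 with hX'
  have hcompX : Compatible ir il X' π' := fn_comp S ir X hX.traces il π hπ 1
  have hX'c := hcont X hX.continuous
  have hx₀e : x₀ ^ e ≠ 1 := hx₀' e he0
  have hX'g₀ : x₀ ^ e ∈ (X' (g₀ ^ e)).charpoly.roots := by
    rw [map_pow, Pool.Agent.OS.nw_pow, Multiset.mem_map]
    refine ⟨x₀, ?_, rfl⟩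
    rw [mem_roots (Matrix.charpoly_monic _).ne_zero]
    have h1 : X' g₀ = cycC r g₀ • X g₀ := by
      change cycC r g₀ ^ 1 • X g₀ = _
      rw [pow_one]
    rw [h1]
    exact hx₀
  have hopen : IsOpen {y : Qbar ≃ₐ[K] Qbar |
      (X' (y ^ e)).charpoly.eval (x₀ ^ e) ≠ (x₀ ^ e - 1) ^ d'} :=
    isOpen_ne.preimage ((ui_cont_eval (x₀ ^ e)).comp (hX'c.comp (continuous_pow e)))
  obtain ⟨t, ht, f, hf1, hf2⟩ := ui_dense hcompX g₀ _ (hopen.mem_nhds (by
    show (X' (g₀ ^ e)).charpoly.eval (x₀ ^ e) ≠ (x₀ ^ e - 1) ^ d'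
    have h1 : (X' (g₀ ^ e)).charpoly.eval (x₀ ^ e) = 0 :=
      (mem_roots (Matrix.charpoly_monic _).ne_zero).1 hX'g₀
    rw [h1]
    exact (pow_ne_zero _ (sub_ne_zero.2 hx₀e)).symm))
  apply ht
  have hroots : ∀ y ∈ (X' (t ^ e)).charpoly.roots, y = 1 := by
    intro y hy
    rw [map_pow, Pool.Agent.OS.nw_pow, Multiset.mem_map] at hy
    obtain ⟨z, hz, rfl⟩ := hy
    have hf0 : f ≠ 0 := by
      intro h0
      rw [h0, Polynomial.map_zero] at hf1
      exact (Matrix.charpoly_monic _).ne_zero hf1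
    refine DP.em_transfer il ir hf0 ?_ z ?_
    · intro x hx
      rw [← hf2, ← Module.End.hasEigenvalue_iff_isRoot_charpoly] at hx
      obtain ⟨v, hv⟩ := hx.exists_hasEigenvector
      have h1 : ∀ i : ℕ, (π' t ^ i) v = x ^ i • v := by
        intro i
        induction i with
        | zero => rw [pow_zero, pow_zero, one_smul]; rfl
        | succ i ih =>
          rw [pow_succ, Module.End.mul_apply, hv.apply_eq_smul, map_smul, ih, smul_smul, pow_succ']
      have h2 := h1 e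
      rw [← map_pow, htriv t, Module.End.one_apply] at h2
      have h3 : (x ^ e - 1) • v = 0 := by rw [sub_smul, one_smul, ← h2, sub_self]
      rcases smul_eq_zero.1 h3 with h4 | h4
      · exact sub_eq_zero.1 h4
      · exact absurd h4 hv.2
    · rw [← hf1]
      exact (mem_roots (Matrix.charpoly_monic _).ne_zero).1 hz
  have hcardroots : Multiset.card (X' (t ^ e)).charpoly.roots = d' := by
    rw [IsAlgClosed.card_roots_eq_natDegree, Matrix.charpoly_natDegree_eq_dim, Fintype.card_fin]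
  have hrep : (X' (t ^ e)).charpoly.roots = Multiset.replicate d' 1 :=
    Multiset.eq_replicate.2 ⟨hcardroots, hroots⟩
  have hprod := (IsAlgClosed.splits (X' (t ^ e)).charpoly).eq_prod_roots
  rw [(Matrix.charpoly_monic _).leadingCoeff, C_1, one_mul, hrep, Multiset.map_replicate,
    Multiset.prod_replicate] at hprod
  rw [hprod, eval_pow, eval_sub, eval_X, eval_C]


/-- The image is infinite. -/
theorem tail_inf {s : ℕ} (S : Fin s → Stratum K) {r : ℕ} [Fact r.Prime] (ir : K →+* ℂ_[r])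
    {d' : ℕ} (X : Rep K r d') (hX : SumRealization X ir n ζ S)
    (g₀ : Qbar ≃ₐ[K] Qbar) (x₀ : ℂ_[r]) (hx₀ : (cycC r g₀ • X g₀).charpoly.IsRoot x₀)
    (hx₀' : ∀ n : ℕ, 0 < n → x₀ ^ n ≠ 1) {p : ℕ} [Fact p.Prime] (ip : K →+* PadicAlgCl p) {d : ℕ}
    (ρ : (Qbar ≃ₐ[K] Qbar) →* Matrix (Fin d) (Fin d) (PadicAlgCl p))
    (hρ : SumTraces (fun σ => (ρ σ).trace) ip n ζ S) :
    (Set.range fun σ : Qbar ≃ₐ[K] Qbar => cycC p σ ^ 1 • DP.extRep ρ σ).Infinite := by
  classical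
  intro hfin
  let R' : (Qbar ≃ₐ[K] Qbar) →* (Matrix (Fin d) (Fin d) ℂ_[p])ˣ :=
    (Pool.Agent.TBL.twist (DP.extRep ρ) 1).toHomUnits
  have hval : ∀ σ, ((R' σ : (Matrix (Fin d) (Fin d) ℂ_[p])ˣ) : Matrix (Fin d) (Fin d) ℂ_[p]) =
      cycC p σ ^ 1 • DP.extRep ρ σ := fun σ => rfl
  have hfr : Finite R'.range := by
    have h1 : (Units.val '' (R'.range : Set (Matrix (Fin d) (Fin d) ℂ_[p])ˣ)).Finite := by
      refine hfin.subset ?_
      rintro _ ⟨_, ⟨σ, rfl⟩, rfl⟩
      exact ⟨σ, (hval σ).symm⟩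
    exact Set.Finite.to_subtype (Set.Finite.of_finite_image h1 Units.val_injective.injOn)
  have hfi : R'.ker.FiniteIndex := inferInstance
  refine tail_main S ir X hX g₀ x₀ hx₀ hx₀' ip (DP.vecRep ρ) ?_ (e := R'.ker.index)
    (Nat.pos_of_ne_zero hfi.index_ne_zero) ?_
  · obtain ⟨B, hB⟩ := hρ
    refine ⟨B, ?_⟩
    intro q hq hqB 𝔓 h𝔓 hq𝔓 F _ _ φ hφ σ hσ
    have h1 := hB q hq hqB 𝔓 h𝔓 hq𝔓 F φ hφ σ hσ
    simp only at h1 ⊢
    rw [DP.vecRep_trace, h1]
  · intro t
    have h1 : R' (t ^ R'.ker.index) = 1 := (MonoidHom.mem_ker).1 (R'.ker.pow_index_mem t)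
    have h2 := congrArg Units.val h1
    rw [hval, Units.val_one] at h2
    set u := t ^ R'.ker.index with hu
    have h3 : cycC p u = algebraMap (PadicAlgCl p) ℂ_[p] (cyc p u) := by
      unfold cycC cyc
      rw [← IsScalarTower.algebraMap_apply]
    have h4 : cyc p u ^ 1 • ρ u = 1 := by
      ext i j
      apply (algebraMap (PadicAlgCl p) ℂ_[p]).injective
      have h5 := congrFun (congrFun h2 i) j
      rw [Matrix.smul_apply, DP.extRep_apply, Matrix.map_apply, h3] at h5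
      rw [Matrix.smul_apply, smul_eq_mul, map_mul, map_pow]
      rw [smul_eq_mul] at h5
      rw [h5, Matrix.one_apply, Matrix.one_apply]
      split_ifs <;> simp
    refine LinearMap.ext fun x => ?_
    have h6 : Pool.Agent.UB.twist (DP.vecRep ρ) 1 tv_cyc_mul tv_cyc_one u x =
        cyc p u ^ 1 • (ρ u).mulVec x := rfl
    rw [h6, ← Matrix.smul_mulVec, h4, Matrix.one_mulVec]
    rfl

end tail

end Pool.Agent.BC
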